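import Pool.Agent.Run7.h840.IfaceC

namespace Run7.h840

theorem nsq_vs_comm (a b : V2) : nsq (vs a b) = nsq (vs b a) := by
  unfold nsq vs
  ring

theorem win_comm (s s' : Site) : win s s' = win s' s := by
  unfold win
  rw [Bool.eq_iff_iff, decide_eq_true_iff, decide_eq_true_iff]
  tauto

theorem near_comm (s s' : Site) : near s s' = near s' s := by
  unfold near
  rw [win_comm s s', nsq_vs_comm]

theorem rule_conf (σ : ℕ → ℕ → Bool) (x y : Vx) (v v' : Bool) (h : rule σ x y = some v)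
    (h' : rule σ y x = some v') : v = v' := by
  rcases x with ⟨l, i, b⟩ | ⟨l, i, b⟩ | ⟨i, j⟩ | ⟨i, k⟩ | ⟨i, j⟩ | ⟨i, k⟩ | ⟨l, k⟩ | ⟨i, b⟩ | ⟨i, k⟩ | k <;>
  rcases y with ⟨l', i', b'⟩ | ⟨l', i', b'⟩ | ⟨i', j'⟩ | ⟨i', k'⟩ | ⟨i', j'⟩ | ⟨i', k'⟩ | ⟨l', k'⟩ | ⟨i', b'⟩ | ⟨i', k'⟩ | k' <;>
  simp only [rule, reduceCtorEq] at h h'
  · -- g g
    simp only [isTest, decide_eq_true_eq] at h h'
    split_ifs at h h' <;> first | omega | (exact absurd h (by simp)) | (exact absurd h' (by simp))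
  all_goals
    split_ifs at h h' <;> first | omega | (exact absurd h (by simp)) | (exact absurd h' (by simp)) | (simp_all)

theorem adj0_comm (σ : ℕ → ℕ → Bool) (x y : Vx) : adj0 σ x y = adj0 σ y x := by
  unfold adj0
  rw [near_comm x.site y.site]
  cases h : rule σ x y <;> cases h' : rule σ y x <;> simp only
  exact rule_conf σ x y _ _ h h'

theorem cyc_comm (k k' : ℕ) : cyc k k' = cyc k' k := by
  unfold cyc
  rw [Bool.eq_iff_iff, decide_eq_true_iff, decide_eq_true_iff]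
  omega

theorem comm : S_comm := by
  intro rtab σ iend x y
  cases x <;> cases y <;> simp only [adj] <;> first | exact adj0_comm σ _ _ | exact cyc_comm _ _

theorem desrule : S_desrule := by
  intro σ mB nL x y hx hy hx' hy' h h'
  rcases x with ⟨l, i, b⟩ | ⟨l, i, b⟩ | ⟨i, j⟩ | ⟨i, k⟩ | ⟨i, j⟩ | ⟨i, k⟩ | ⟨l, k⟩ | ⟨i, b⟩ | ⟨i, k⟩ | k <;>
  rcases y with ⟨l', i', b'⟩ | ⟨l', i', b'⟩ | ⟨i', j'⟩ | ⟨i', k'⟩ | ⟨i', j'⟩ | ⟨i', k'⟩ | ⟨l', k'⟩ | ⟨i', b'⟩ | ⟨i', k'⟩ | k' <;>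
  first
  | exact absurd rfl (hx' _)
  | exact absurd rfl (hy' _)
  | skip
  all_goals
    simp only [rule, isTest, decide_eq_true_eq, Val] at h h' hx hy
    simp only [des, des1, Vx.site, isTest, Bool.or_eq_false_iff, decide_eq_false_iff_not]
    clear hx' hy'
  all_goals
    first
    | (split_ifs at h h' <;> omega)
    | (refine ⟨?_, ?_⟩ <;> (split_ifs at h h' <;> omega))
    | exact ⟨trivial, trivial⟩
    | omega
    | (simp only [and_true, true_and, not_false_eq_true] ; omega)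

end Run7.h840
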