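import Pool.Agent.Run7.h840.IfaceC
import Pool.Agent.H625R2.BallFin

/-!
# Encoding of the graph, and the final interface
-/

namespace Run7.h840

open Pool.Agent.NPC Pool.Agent.NPC.H670R2 Pool.Agent.NPC.ER Pool.Agent.NPC.ER.Pat

/-- class of a vertex which is not a ring vertex: a number below `33` -/
def kcode : Vx → ℕ
  | .g _ _ b => if b then 1 else 0
  | .gp _ _ b => if b then 3 else 2
  | .m _ j => 4 + j
  | .a _ k => 7 + k
  | .t _ j => 13 + j
  | .bd _ k => 15 + k
  | .kd _ k => 20 + k
  | .h _ b => if b then 27 else 26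
  | .hd _ k => 27 + k
  | .w _ => 33

/-- row entry of the code -/
def rowc : Vx → ℕ
  | .g l _ _ => l
  | .gp l _ _ => l
  | .kd l _ => l
  | _ => 0

/-- column entry of the code -/
def colc : Vx → ℕ
  | .g _ i _ => i
  | .gp _ i _ => i
  | .m i _ => i
  | .a i _ => i
  | .t i _ => i
  | .bd i _ => i
  | .kd _ _ => 0
  | .h i _ => i
  | .hd i _ => i
  | .w _ => 0

/-- the vertex of class `c` with row `l` and column `i` -/
def mkv (c l i : ℕ) : Vx :=
  if c = 0 then .g l i false else if c = 1 then .g l i true
  else if c = 2 then .gp l i false else if c = 3 then .gp l i true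
  else if c < 7 then .m i (c - 4) else if c < 13 then .a i (c - 7)
  else if c < 16 then .t i (c - 13) else if c < 21 then .bd i (c - 15)
  else if c < 26 then .kd l (c - 20) else if c = 26 then .h i false
  else if c = 27 then .h i true else .hd i (c - 27)

/-- the code of a vertex; `W` is larger than all columns -/
def enc (W : ℕ) : Vx → ℕ
  | .w k => 64 * k + 33
  | x => 64 * (rowc x * W + colc x) + kcode x

/-- the vertex with a given code -/
def dec (W a : ℕ) : Vx :=
  if a % 64 = 33 then .w (a / 64) else mkv (a % 64) (a / 64 / W) (a / 64 % W)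

/-- `mkv c l i` is a vertex (for `c < 33`) -/
def valc (mB nL c l i : ℕ) : Bool :=
  if c ≤ 1 then decide ((l = 0 ∧ i ≤ iendOf mB nL) ∨ (l < 8 * nL ∧ i ≤ irOf mB))
  else if c ≤ 3 then decide (i % 4 = 2 ∧ i ≤ irOf mB ∧ l < 8 * nL)
  else if c < 13 then decide (l = 0 ∧ i % 4 = 2 ∧ i ≤ iendOf mB nL)
  else if c < 16 then decide (l = 0 ∧ i % 4 = 2 ∧ i ≤ irOf mB)
  else if c < 21 then decide (l = 0 ∧ 1 ≤ i ∧ i ≤ iendOf mB nL)
  else if c < 26 then decide (i = 0 ∧ l + 1 < 8 * nL)
  else decide (l = 0 ∧ i % 4 = 0 ∧ i + 2 ≤ irOf mB)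

/-- the list of the codes of the vertices -/
def vtxU (mB nL : ℕ) : List ℕ :=
  ((List.range (8 * nL)).flatMap fun l => (List.range (iendOf mB nL + 1)).flatMap fun i =>
    ((List.range 33).filter fun c => valc mB nL c l i).map fun c =>
      64 * (l * (iendOf mB nL + 1) + i) + c) ++
  (List.range (6 * MR)).map fun k => 64 * k + 33

/-- **The graph of a sign matrix** (one more point and one more line, with `false` entries). -/
def ug (rtab : ℕ → Site → Bool) (M : List (List Bool)) : GCode :=
  gOf (vtxU (M.length + 1) (wid M + 1)) fun a b =>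
    adj rtab (ent M) (iendOf (M.length + 1) (wid M + 1))
      (dec (iendOf (M.length + 1) (wid M + 1) + 1) a)
      (dec (iendOf (M.length + 1) (wid M + 1) + 1) b)

/-- **D1 (polynomial time).**

PROOF.  `poly_gOf`.  The list: `UPoly.range` (`M.length`, `wid M` are `UPoly`; `8 * nL`,
`iendOf + 1` too), `Poly.flatMap`, `Poly.filter`, and the constant list for the ring.
The adjacency of `a < b`: a function of `c = a % 64`, `l = a/64/W`, `i = a/64 % W` and `c', l', i'`.
(1) if one of them is a ring vertex: if both are: `cyc` (arithmetic comparisons).  If only one, with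
`k = a / 64`: if `k < 6 * MR` and `iend ≤ i' + 12 ∧ i' ≤ iend` and the row is fine, the value is a
membership test of `(k, c', i' + 14 - iend)` in a constant list (all of `k < 6 MR`, `c' < 64`,
`i' + 14 - iend < 15`; the list is `filter` of a product of ranges, it is not to be evaluated).
For codes which are not in the list of vertices (`k ≥ 6 * MR`) the value does not matter: either use
`Poly` of a function which agrees on the list of vertices (and show that the two graphs `gOf` are
equal), or treat them.
(2) none: `adj0 σ x y = if (test pair, reached by the rule) then tval σ l i else if (same for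
(y, x)) then … else adj0 (fun _ _ => false) x y`, and the last value is invariant under translation
by `4` columns if neither is a `kd` vertex (and both columns are `≥ 4`), and by `8` rows if both are
`g`, `gp`, `kd` (and both rows are `≥ 8`); it is `false` if not `win` (all pairs with a rule are
in the window).  So reduce `(i, i')` by `4 (min (i/4) (i'/4) - 1)` and `(l, l')` by
`8 (min (l/8) (l'/8) - 1)` where allowed, and use a membership test in a constant list of tuples of
numbers `< 64` (false if one of the reduced numbers is `≥ 64`). -/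
def S_D1 : Prop := ∀ rtab : ℕ → Site → Bool, Poly (ug rtab)

/-- **D2 (degrees).**

PROOF.  A neighbour `b` of `a` is a ring vertex (`≤ 6 MR` of them) or, with the notation of D1, one
of `33` classes with `|i - i'| ≤ 15`, `|l - l'| ≤ 15` (the window of `near`; pairs with a rule are
in the window).  For ring vertices: ring vertices, or `33` classes, `l' = 0` and
`iend - 12 ≤ i' ≤ iend`. -/
def S_D2 : Prop := ∀ (rtab : ℕ → Site → Bool) (M : List (List Bool)) (v : (ug rtab M).V),
  ((ug rtab M).graph.neighborSet v).ncard ≤ 10 ^ 15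

/-- **D3 (transfer).**

PROOF.  `gOf_real` with `Q x y = (‖x - y‖ ≤ 1)` (as in `ballG_iff`), `dec W (enc W x) = x` for valid
`x`, `enc W x ∈ vtxU` and conversely the elements of `vtxU` are codes of valid vertices
`a = enc W (dec W a)`; symmetry of `adj`. -/
def S_D3 : Prop := S_comm → ∀ (rtab : ℕ → Site → Bool) (M : List (List Bool)),
  ((∃ p : (ug rtab M).V → ℂ, ∀ u v, u ≠ v → ((ug rtab M).graph.Adj u v ↔ ‖p u - p v‖ ≤ 1)) ↔
    ∃ P, Rlz (adj rtab (ent M) (iendOf (M.length + 1) (wid M + 1))) (M.length + 1) (wid M + 1) P)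

/-- **D4.**  PROOF.  Divide the lines by `η j 0 > 0`.  The entries of the additional row and column
are `false`: take a point with `y0` very negative (after the lines) and a line with `h = 0`, `c` very
negative. -/
def S_D4 : Prop := ∀ (M : List (List Bool)) (m : ℕ), Rect m M → SRN 2 M →
  Sig (ent M) (M.length + 1) (wid M + 1)

/-- **D5.**  PROOF.  `y i = (1, z.re, z.im)`, `h j = (c, u.re, u.im)`; `ent_eq`, `wid_eq`. -/
def S_D5 : Prop := ∀ (M : List (List Bool)) (m : ℕ), Rect m M →
  Lin (ent M) (M.length + 1) (wid M + 1) → SR 3 M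

/-- `G` is a unit disk graph. -/
def IsUDG {V : Type} (G : SimpleGraph V) : Prop :=
  ∃ p : V → EuclideanSpace ℝ (Fin 2), ∀ u v, u ≠ v →
    (G.Adj u v ↔ (Metric.closedBall (p u) 1 ∩ Metric.closedBall (p v) 1).Nonempty)

/-- `UDG_Δ`: the codes of the unit disk graphs of maximum degree at most `Δ`. -/
def UDGb (Δ : ℕ) : Set (List Bool) := lang fun g : GCode =>
  g.WF ∧ (∀ v : g.V, (g.graph.neighborSet v).ncard ≤ Δ) ∧ IsUDG g.graph

/-- **D6.**  PROOF.  `Complex.orthonormalBasisOneI` or coordinates; scaling by `2`:
`closedBall (p u) 1 ∩ closedBall (p v) 1 ≠ ∅ ↔ dist (p u) (p v) ≤ 2`. -/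
def S_D6 : Prop := ∀ {V : Type} (G : SimpleGraph V),
  IsUDG G ↔ ∃ p : V → ℂ, ∀ u v, u ≠ v → (G.Adj u v ↔ ‖p u - p v‖ ≤ 1)

end Run7.h840
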