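import Pool.Agent.Run7.h840.C3

namespace Run7.h840

theorem win_shC (s s' : Site) (hs : CS s) (hs' : CS s') (t : ℕ) :
    win (shC t s) (shC t s') = win s s' := by
  unfold win
  have h1 : ∀ s, CS s → (shC t s).ci / 4 = s.ci / 4 + t ∧ (shC t s).ri = s.ri := by
    intro s hs
    cases s <;> first | exact False.elim hs | exact ⟨by simp only [shC, Site.ci]; omega, rfl⟩
  rw [(h1 s hs).1, (h1 s' hs').1, (h1 s hs).2, (h1 s' hs').2]
  rw [Bool.eq_iff_iff, decide_eq_true_iff, decide_eq_true_iff]
  omega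

theorem win_shR (s s' : Site) (hs : RS' s) (hs' : RS' s') (t : ℕ) :
    win (shR t s) (shR t s') = win s s' := by
  unfold win
  have h1 : ∀ s, RS' s → (shR t s).ci = s.ci ∧ (shR t s).ri / 8 = s.ri / 8 + t := by
    intro s hs
    cases s <;> first | exact False.elim hs | exact ⟨rfl, by simp only [shR, Site.ri]; omega⟩
  rw [(h1 s hs).1, (h1 s' hs').1, (h1 s hs).2, (h1 s' hs').2]
  rw [Bool.eq_iff_iff, decide_eq_true_iff, decide_eq_true_iff]
  omega

theorem near_shC {s s' : Site} (hs : CS s) (hs' : CS s') (t : ℕ) :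
    near (shC t s) (shC t s') = near s s' := by
  unfold near
  rw [win_shC s s' hs hs', N_shC hs, N_shC hs', vs_va]

theorem near_shR {s s' : Site} (hs : RS' s) (hs' : RS' s') (t : ℕ) :
    near (shR t s) (shR t s') = near s s' := by
  unfold near
  rw [win_shR s s' hs hs', N_shR hs, N_shR hs', vs_va]

/-! ### evaluation of `adj0` -/

theorem adj0_of {σ : ℕ → ℕ → Bool} {x y : Vx} {v : Bool} (h : rule σ x y = some v) :
    adj0 σ x y = v := by unfold adj0; rw [h]

theorem adj0_of' {σ : ℕ → ℕ → Bool} {x y : Vx} {v : Bool} (h : rule σ y x = some v) :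
    adj0 σ x y = v := by rw [adj0_comm]; exact adj0_of h

theorem adj0_near {σ : ℕ → ℕ → Bool} {x y : Vx} {v : Bool} (h : rule σ x y = none)
    (h' : rule σ y x = none) (hn : near x.site y.site = v) : adj0 σ x y = v := by
  unfold adj0; rw [h, h']; exact hn

theorem near_self (s : Site) : near s s = true := by
  unfold near win
  rw [Bool.and_eq_true, decide_eq_true_iff, decide_eq_true_iff]
  refine ⟨by omega, ?_⟩
  have : nsq (vs s.N s.N) = 0 := by unfold nsq vs; ring
  rw [this]
  unfold SS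
  norm_num

theorem rule_self (σ : ℕ → ℕ → Bool) (x : Vx) : rule σ x x = none := by
  rcases x with ⟨l, i, b⟩ | ⟨l, i, b⟩ | ⟨i, j⟩ | ⟨i, k⟩ | ⟨i, j⟩ | ⟨i, k⟩ | ⟨l, k⟩ | ⟨i, b⟩ | ⟨i, k⟩ | k <;>
  simp only [rule, isTest, decide_eq_true_eq] <;> split_ifs <;> first | rfl | omega

theorem adj0_self (σ : ℕ → ℕ → Bool) (x : Vx) : adj0 σ x x = true :=
  adj0_near (rule_self σ x) (rule_self σ x) (near_self _)

section

variable {rtab : ℕ → Site → Bool} {σ : ℕ → ℕ → Bool} {mB nL : ℕ} {P : Vx → ℂ}

theorem adj_eq0 {iend : ℕ} {x y : Vx} (hx : kn x ≠ 9) (hy : kn y ≠ 9) :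
    adj rtab σ iend x y = adj0 σ x y := by
  cases x <;> first
    | exact absurd rfl hx
    | (cases y <;> first | exact absurd rfl hy | rfl)

theorem le_of (hR : Rlz (adj rtab σ (iendOf mB nL)) mB nL P) {x y : Vx} (hx : kn x ≠ 9)
    (hy : kn y ≠ 9) (vx : Val mB nL x) (vy : Val mB nL y) (h : adj0 σ x y = true) :
    ‖P x - P y‖ ≤ 1 := by
  by_cases e : x = y
  · rw [e, sub_self, norm_zero]; norm_num
  · exact (hR x y vx vy e).1 (by rw [adj_eq0 hx hy]; exact h)

theorem gt_of (hR : Rlz (adj rtab σ (iendOf mB nL)) mB nL P) {x y : Vx} (hx : kn x ≠ 9)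
    (hy : kn y ≠ 9) (vx : Val mB nL x) (vy : Val mB nL y) (h : adj0 σ x y = false) :
    1 < ‖P x - P y‖ := by
  by_cases e : x = y
  · rw [e, adj0_self] at h
    exact absurd h (by simp)
  · by_contra h1
    have := (hR x y vx vy e).2 (not_lt.1 h1)
    rw [adj_eq0 hx hy, h] at this
    exact absurd this (by simp)

theorem tight_of (hR : Rlz (adj rtab σ (iendOf mB nL)) mB nL P) {c : Bool → Vx} {x : Vx}
    (u : V2) (hc : ∀ b, kn (c b) ≠ 9) (hx : kn x ≠ 9) (vc : ∀ b, Val mB nL (c b))
    (vx : Val mB nL x) (h : ∀ b, adj0 σ (c b) x = pol b u) : Tight P c x := by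
  refine ⟨decide (0 < idot u nui), ?_, ?_⟩
  · refine le_of hR (hc _) hx (vc _) vx ?_
    rw [h]; unfold pol; simp
  · refine gt_of hR (hc _) hx (vc _) vx ?_
    rw [h]; unfold pol; simp

end

section

variable {rtab : ℕ → Site → Bool} {σ : ℕ → ℕ → Bool} {mB nL : ℕ} {P : Vx → ℂ}

theorem rims_mod (y : Vx) (r : ℕ → Vx) (k : ℕ) : rims y r k = rims y r (k % 6) := by
  unfold rims; rw [Nat.mod_mod]

theorem wheel_of (hR : Rlz (adj rtab σ (iendOf mB nL)) mB nL P) {c : Bool → Vx} {y : Vx}
    {r : ℕ → Vx} (hc : ∀ b, kn (c b) ≠ 9) (hy : kn y ≠ 9) (vc : ∀ b, Val mB nL (c b))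
    (vy : Val mB nL y) (hr : ∀ k, 1 ≤ k → k ≤ 5 → kn (r k) ≠ 9 ∧ Val mB nL (r k))
    (t0 : ∃ u, ∀ b, adj0 σ (c b) y = pol b u)
    (tk : ∀ k, 1 ≤ k → k ≤ 5 → ∃ u, ∀ b, adj0 σ (c b) (r k) = pol b u)
    (a0 : adj0 σ y (r 1) = true) (a5 : adj0 σ y (r 5) = true)
    (ak : ∀ k, 1 ≤ k → k ≤ 4 → adj0 σ (r k) (r (k + 1)) = true)
    (n0 : ∀ k, 2 ≤ k → k ≤ 4 → adj0 σ y (r k) = false)
    (nk : ∀ p ∈ [(1, 3), (1, 4), (1, 5), (2, 4), (2, 5), (3, 5)],
      adj0 σ (r p.1) (r p.2) = false) : Wheel P c y r := by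
  have N0 : ∀ k, 2 ≤ k → k ≤ 4 → 1 < ‖P y - P (r k)‖ := fun k h1 h2 =>
    gt_of hR hy (hr k (by omega) (by omega)).1 vy (hr k (by omega) (by omega)).2 (n0 k h1 h2)
  have NK : ∀ k k', (k, k') ∈ [(1, 3), (1, 4), (1, 5), (2, 4), (2, 5), (3, 5)] →
      1 < ‖P (r k) - P (r k')‖ := by
    intro k k' h
    have h' := nk _ h
    have hk : 1 ≤ k ∧ k ≤ 5 ∧ 1 ≤ k' ∧ k' ≤ 5 := by
      simp only [List.mem_cons, Prod.mk.injEq, List.not_mem_nil, or_false] at h
      omega
    exact gt_of hR (hr k hk.1 hk.2.1).1 (hr k' hk.2.2.1 hk.2.2.2).1 (hr k hk.1 hk.2.1).2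
      (hr k' hk.2.2.1 hk.2.2.2).2 h'
  have AK : ∀ k, 1 ≤ k → k ≤ 4 → ‖P (r k) - P (r (k + 1))‖ ≤ 1 := fun k h1 h2 =>
    le_of hR (hr k (by omega) (by omega)).1 (hr (k + 1) (by omega) (by omega)).1
      (hr k (by omega) (by omega)).2 (hr (k + 1) (by omega) (by omega)).2 (ak k h1 h2)
  have A0 : ‖P y - P (r 1)‖ ≤ 1 := le_of hR hy (hr 1 (by omega) (by omega)).1 vy
    (hr 1 (by omega) (by omega)).2 a0
  have A5 : ‖P y - P (r 5)‖ ≤ 1 := le_of hR hy (hr 5 (by omega) (by omega)).1 vy
    (hr 5 (by omega) (by omega)).2 a5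
  have e0 : rims y r 0 = y := rfl
  have e1 : rims y r 1 = r 1 := rfl
  have e2 : rims y r 2 = r 2 := rfl
  have e3 : rims y r 3 = r 3 := rfl
  have e4 : rims y r 4 = r 4 := rfl
  have e5 : rims y r 5 = r 5 := rfl
  refine ⟨fun k => ?_, fun k => ?_, fun k => ?_, fun k => ?_⟩
  · rw [rims_mod]
    have hk : k % 6 < 6 := Nat.mod_lt _ (by norm_num)
    generalize k % 6 = m at hk
    rcases Nat.eq_zero_or_pos m with h | h
    · subst h
      obtain ⟨u, hu⟩ := t0
      exact tight_of hR u hc hy vc vy hu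
    · have : rims y r m = r m := by
        unfold rims
        rw [Nat.mod_eq_of_lt hk, if_neg (by omega)]
      rw [this]
      obtain ⟨u, hu⟩ := tk m h (by omega)
      exact tight_of hR u hc (hr m h (by omega)).1 vc (hr m h (by omega)).2 hu
  · rw [rims_mod y r k, rims_mod y r (k + 1)]
    have hk : k % 6 < 6 := Nat.mod_lt _ (by norm_num)
    have hk' : (k + 1) % 6 = (k % 6 + 1) % 6 := by omega
    rw [hk']
    generalize k % 6 = m at hk
    interval_cases m <;> simp only [Nat.reduceAdd, Nat.reduceMod, e0, e1, e2, e3, e4, e5]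
    · exact A0
    · exact AK 1 (by norm_num) (by norm_num)
    · exact AK 2 (by norm_num) (by norm_num)
    · exact AK 3 (by norm_num) (by norm_num)
    · exact AK 4 (by norm_num) (by norm_num)
    · rw [norm_sub_rev]; exact A5
  · rw [rims_mod y r k, rims_mod y r (k + 2)]
    have hk : k % 6 < 6 := Nat.mod_lt _ (by norm_num)
    have hk' : (k + 2) % 6 = (k % 6 + 2) % 6 := by omega
    rw [hk']
    generalize k % 6 = m at hk
    interval_cases m <;> simp only [Nat.reduceAdd, Nat.reduceMod, e0, e1, e2, e3, e4, e5]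
    · exact N0 2 (by norm_num) (by norm_num)
    · exact NK 1 3 (by simp)
    · exact NK 2 4 (by simp)
    · exact NK 3 5 (by simp)
    · rw [norm_sub_rev]; exact N0 4 (by norm_num) (by norm_num)
    · rw [norm_sub_rev]; exact NK 1 5 (by simp)
  · rw [rims_mod y r k, rims_mod y r (k + 3)]
    have hk : k % 6 < 6 := Nat.mod_lt _ (by norm_num)
    have hk' : (k + 3) % 6 = (k % 6 + 3) % 6 := by omega
    rw [hk']
    generalize k % 6 = m at hk
    interval_cases m <;> simp only [Nat.reduceAdd, Nat.reduceMod, e0, e1, e2, e3, e4, e5]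
    · exact N0 3 (by norm_num) (by norm_num)
    · exact NK 1 4 (by simp)
    · exact NK 2 5 (by simp)
    · rw [norm_sub_rev]; exact N0 3 (by norm_num) (by norm_num)
    · rw [norm_sub_rev]; exact NK 1 4 (by simp)
    · rw [norm_sub_rev]; exact NK 2 5 (by simp)

end

/-! ### finite checks of `near` -/

theorem nf_bd : ∀ c < 4, ∀ k < 6, 2 ≤ k → k ≤ 4 →
    near (.G 0 c) (.Bd (c + 1) k) = false := by decide +kernel
theorem nf_bb : ∀ c < 4, ∀ p ∈ [(1, 3), (1, 4), (1, 5), (2, 4), (2, 5), (3, 5)],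
    near (.Bd (c + 1) p.1) (.Bd (c + 1) p.2) = false := by decide +kernel
theorem nf_kd : ∀ r < 8, ∀ k < 6, 2 ≤ k → k ≤ 4 →
    near (.G (r + 1) 0) (.Kd r k) = false := by decide +kernel
theorem nf_kk : ∀ r < 8, ∀ p ∈ [(1, 3), (1, 4), (1, 5), (2, 4), (2, 5), (3, 5)],
    near (.Kd r p.1) (.Kd r p.2) = false := by decide +kernel
theorem nf_hh : ∀ k < 6, ∀ k' < 6, (k' = k + 2 ∨ k' = k + 3 ∨ k' = k + 4) →
    near (.H 0 k) (.H 0 k') = false := by decide +kernel
theorem nf_aa : ∀ k < 6, ∀ k' < 6, (k' = k + 2 ∨ k' = k + 3 ∨ k' = k + 4) →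
    near (.A 2 k) (.A 2 k') = false := by decide +kernel
theorem nt_ta : ∀ j < 3, near (.Th 2 j) (.A 2 (j + 1)) = true ∧
    near (.Th 2 j) (.A 2 (j + 2)) = true := by decide +kernel
theorem nf_d1 : ∀ r < 8, ∀ c < 4, near (.G r (c + 1)) (.G (r + 1) c) = false := by decide +kernel
theorem nf_d2 : ∀ r < 8, ∀ c < 4, near (.G r c) (.G (r + 1) (c + 1)) = false := by decide +kernel
theorem nt_h : near (.H 0 0) (.Bd 2 4) = true ∧ near (.H 0 0) (.Bd 2 5) = true ∧
    near (.H 0 0) (.G 0 1) = false := by decide +kernel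
theorem nf_dir : near (.G 6 0) (.G 3 1) = false ∧ near (.G 6 0) (.G 4 1) = true := by
  decide +kernel
theorem pos_ma : ∀ j < 3, 0 < idot (rt psii (j + 1)) (mdir j) := by decide +kernel
theorem pos_bd2 : 0 < idot (rt (vn (stX 1)) 2) vpi := by decide +kernel

/-! ### `near` at general positions -/

theorem near_d1 (l i : ℕ) : near (.G l (i + 1)) (.G (l + 1) i) = false := by
  have e1 : Site.G l (i + 1) = shR (l / 8) (shC (i / 4) (.G (l % 8) (i % 4 + 1))) := by
    simp only [shR, shC, Site.G.injEq]; omega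
  have e2 : Site.G (l + 1) i = shR (l / 8) (shC (i / 4) (.G (l % 8 + 1) (i % 4))) := by
    simp only [shR, shC, Site.G.injEq]; omega
  rw [e1, e2, near_shR (by trivial) (by trivial), near_shC (by trivial) (by trivial)]
  exact nf_d1 _ (Nat.mod_lt _ (by norm_num)) _ (Nat.mod_lt _ (by norm_num))

theorem near_d2 (l i : ℕ) : near (.G l i) (.G (l + 1) (i + 1)) = false := by
  have e1 : Site.G l i = shR (l / 8) (shC (i / 4) (.G (l % 8) (i % 4))) := by
    simp only [shR, shC, Site.G.injEq]; omega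
  have e2 : Site.G (l + 1) (i + 1) = shR (l / 8) (shC (i / 4) (.G (l % 8 + 1) (i % 4 + 1))) := by
    simp only [shR, shC, Site.G.injEq]; omega
  rw [e1, e2, near_shR (by trivial) (by trivial), near_shC (by trivial) (by trivial)]
  exact nf_d2 _ (Nat.mod_lt _ (by norm_num)) _ (Nat.mod_lt _ (by norm_num))

theorem near_bd (i k : ℕ) (h1 : 2 ≤ k) (h2 : k ≤ 4) :
    near (.G 0 i) (.Bd (i + 1) k) = false := by
  have e1 : Site.G 0 i = shC (i / 4) (.G 0 (i % 4)) := by
    simp only [shC, Site.G.injEq, true_and]; omega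
  have e2 : Site.Bd (i + 1) k = shC (i / 4) (.Bd (i % 4 + 1) k) := by
    simp only [shC, Site.Bd.injEq, and_true]; omega
  rw [e1, e2, near_shC (by trivial) (by simp [CS])]
  exact nf_bd _ (Nat.mod_lt _ (by norm_num)) _ (by omega) h1 h2

theorem near_bb (i : ℕ) (p : ℕ × ℕ)
    (hp : p ∈ [(1, 3), (1, 4), (1, 5), (2, 4), (2, 5), (3, 5)]) :
    near (.Bd (i + 1) p.1) (.Bd (i + 1) p.2) = false := by
  have e1 : ∀ k, Site.Bd (i + 1) k = shC (i / 4) (.Bd (i % 4 + 1) k) := by
    intro k
    simp only [shC, Site.Bd.injEq, and_true]; omega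
  rw [e1, e1, near_shC (by simp [CS]) (by simp [CS])]
  exact nf_bb _ (Nat.mod_lt _ (by norm_num)) p hp

theorem near_kd (l k : ℕ) (h1 : 2 ≤ k) (h2 : k ≤ 4) :
    near (.G (l + 1) 0) (.Kd l k) = false := by
  have e1 : Site.G (l + 1) 0 = shR (l / 8) (.G (l % 8 + 1) 0) := by
    simp only [shR, Site.G.injEq, and_true]; omega
  have e2 : Site.Kd l k = shR (l / 8) (.Kd (l % 8) k) := by
    simp only [shR, Site.Kd.injEq, and_true]; omega
  rw [e1, e2, near_shR (by trivial) (by trivial)]
  exact nf_kd _ (Nat.mod_lt _ (by norm_num)) _ (by omega) h1 h2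

theorem near_kk (l : ℕ) (p : ℕ × ℕ)
    (hp : p ∈ [(1, 3), (1, 4), (1, 5), (2, 4), (2, 5), (3, 5)]) :
    near (.Kd l p.1) (.Kd l p.2) = false := by
  have e1 : ∀ k, Site.Kd l k = shR (l / 8) (.Kd (l % 8) k) := by
    intro k
    simp only [shR, Site.Kd.injEq, and_true]; omega
  rw [e1, e1, near_shR (by trivial) (by trivial)]
  exact nf_kk _ (Nat.mod_lt _ (by norm_num)) p hp

theorem near_hh {i : ℕ} (hi : i % 4 = 0) {k k' : ℕ} (hk : k < 6) (hk' : k' < 6)
    (h : k' = k + 2 ∨ k' = k + 3 ∨ k' = k + 4) : near (.H i k) (.H i k') = false := by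
  have e1 : ∀ k, Site.H i k = shC (i / 4) (.H 0 k) := by
    intro k
    simp only [shC, Site.H.injEq, and_true]; omega
  rw [e1, e1, near_shC (by trivial) (by trivial)]
  exact nf_hh k hk k' hk' h

theorem near_aa {i : ℕ} (hi : i % 4 = 2) {k k' : ℕ} (hk : k < 6) (hk' : k' < 6)
    (h : k' = k + 2 ∨ k' = k + 3 ∨ k' = k + 4) : near (.A i k) (.A i k') = false := by
  have e1 : ∀ k, Site.A i k = shC (i / 4) (.A 2 k) := by
    intro k
    simp only [shC, Site.A.injEq, and_true]; omega
  rw [e1, e1, near_shC (by trivial) (by trivial)]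
  exact nf_aa k hk k' hk' h

theorem near_ta {i j : ℕ} (hi : i % 4 = 2) (hj : j < 3) :
    near (.Th i j) (.A i (j + 1)) = true ∧ near (.Th i j) (.A i (j + 2)) = true := by
  have e1 : ∀ k, Site.A i k = shC (i / 4) (.A 2 k) := by
    intro k
    simp only [shC, Site.A.injEq, and_true]; omega
  have e2 : Site.Th i j = shC (i / 4) (.Th 2 j) := by
    simp only [shC, Site.Th.injEq, and_true]; omega
  rw [e1, e1, e2, near_shC (by trivial) (by trivial), near_shC (by trivial) (by trivial)]
  exact nt_ta j hj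

theorem near_h {i : ℕ} (hi : i % 4 = 2) : near (.H (i - 2) 0) (.Bd i 4) = true ∧
    near (.H (i - 2) 0) (.Bd i 5) = true ∧ near (.H (i - 2) 0) (.G 0 (i - 1)) = false := by
  have e1 : Site.H (i - 2) 0 = shC (i / 4) (.H 0 0) := by
    simp only [shC, Site.H.injEq, and_true]; omega
  have e2 : ∀ k, Site.Bd i k = shC (i / 4) (.Bd 2 k) := by
    intro k
    simp only [shC, Site.Bd.injEq, and_true]; omega
  have e3 : Site.G 0 (i - 1) = shC (i / 4) (.G 0 1) := by
    simp only [shC, Site.G.injEq, true_and]; omega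
  rw [e1, e2, e2, e3, near_shC (by trivial) (by simp [CS]), near_shC (by trivial) (by simp [CS]),
    near_shC (by trivial) (by trivial)]
  exact nt_h

theorem near_dir (p j : ℕ) : near (.G (8 * j + 6) (4 * p)) (.G (8 * j + 3) (4 * p + 1)) = false ∧
    near (.G (8 * j + 6) (4 * p)) (.G (8 * j + 4) (4 * p + 1)) = true := by
  have e : ∀ r c, Site.G (8 * j + r) (4 * p + c) = shR j (shC p (.G r c)) := by
    intro r c
    simp only [shR, shC, Site.G.injEq]; omega
  rw [show Site.G (8 * j + 6) (4 * p) = Site.G (8 * j + 6) (4 * p + 0) from rfl, e, e, e,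
    near_shR (by trivial) (by trivial), near_shC (by trivial) (by trivial),
    near_shR (by trivial) (by trivial), near_shC (by trivial) (by trivial)]
  exact nf_dir

/-! ### the facts -/

section

variable {rtab : ℕ → Site → Bool} {σ : ℕ → ℕ → Bool} {mB nL : ℕ} {P : Vx → ℂ}

/-- a vertex of the cluster of node `i` is not a ring vertex -/
theorem kn_Cl {i : ℕ} {x : Vx} (h : Cl i x) : kn x ≠ 9 := by
  rcases h with ⟨b, rfl⟩ | ⟨-, j, -, rfl⟩ <;> simp [kn]

theorem val_Cl {i : ℕ} {x : Vx} (hi : i ≤ iendOf mB nL) (h : Cl i x) : Val mB nL x := by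
  rcases h with ⟨b, rfl⟩ | ⟨h1, j, h2, rfl⟩
  · exact Or.inl ⟨rfl, hi⟩
  · exact ⟨h1, hi, h2⟩

theorem f_whB (hR : Rlz (adj rtab σ (iendOf mB nL)) mB nL P) (i : ℕ) (hi : i < iendOf mB nL)
    (y : Vx) (hy : Cl i y) : Wheel P (.g 0 (i + 1)) y (.bd (i + 1)) := by
  refine wheel_of hR (fun b => by simp [kn]) (kn_Cl hy) (fun b => Or.inl ⟨rfl, hi⟩)
    (val_Cl hi.le hy) (fun k h1 h2 => ⟨by simp [kn], ⟨by omega, hi, h1, h2⟩⟩) ?_ ?_ ?_ ?_ ?_ ?_ ?_
  · refine ⟨vn (stX i), fun b => ?_⟩
    rcases hy with ⟨b', rfl⟩ | ⟨h1, j, h2, rfl⟩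
    · apply adj0_of
      simp [rule]
    · apply adj0_of'
      first
        | (simp [rule]; done)
        | (simp only [rule, true_and, and_true, if_true]
           split_ifs <;> first | rfl | omega | (exfalso; simp_all; done) | simp_all)
  · intro k h1 h2
    refine ⟨rt (vn (stX i)) k, fun b => adj0_of ?_⟩
    simp [rule]
  · rcases hy with ⟨b', rfl⟩ | ⟨h1, j, h2, rfl⟩ <;> apply adj0_of <;> simp [rule]
  · rcases hy with ⟨b', rfl⟩ | ⟨h1, j, h2, rfl⟩ <;> apply adj0_of <;> simp [rule]
  · intro k h1 h2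
    apply adj0_of
    simp [rule]
  · intro k h1 h2
    rcases hy with ⟨b', rfl⟩ | ⟨h3, j, h4, rfl⟩
    · refine adj0_near ?_ ?_ (near_bd i k h1 h2)
      · simp only [rule, true_and, and_true]; split_ifs <;> first | rfl | omega | (exfalso; simp_all; done) | simp_all
      · simp only [rule]
    · refine adj0_near ?_ ?_ (near_bd i k h1 h2)
      · simp only [rule, true_and, and_true]; split_ifs <;> first | rfl | omega | (exfalso; simp_all; done) | simp_all
      · simp only [rule]
  · intro p hp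
    refine adj0_near ?_ ?_ (near_bb i p hp)
    all_goals
      simp only [List.mem_cons, List.not_mem_nil, or_false] at hp
      rcases hp with rfl | rfl | rfl | rfl | rfl | rfl <;> simp [rule]

theorem f_whK (hR : Rlz (adj rtab σ (iendOf mB nL)) mB nL P) (l : ℕ) (b : Bool)
    (hl : l + 1 < 8 * nL) : Wheel P (.g l 0) (.g (l + 1) 0 b) (.kd l) := by
  refine wheel_of hR (fun b => by simp [kn]) (by simp [kn]) (fun b => Or.inr ⟨by omega, by omega⟩)
    (Or.inr ⟨by omega, by omega⟩) (fun k h1 h2 => ⟨by simp [kn], ⟨hl, h1, h2⟩⟩) ?_ ?_ ?_ ?_ ?_ ?_ ?_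
  · refine ⟨stY l, fun b => adj0_of ?_⟩
    first
      | (simp [rule]; done)
      | (simp only [rule, true_and, and_true, if_true]
         split_ifs <;> first | rfl | omega | (exfalso; simp_all; done) | simp_all)
  · intro k h1 h2
    refine ⟨rt (stY l) k, fun b => adj0_of ?_⟩
    simp [rule]
  · apply adj0_of
    simp [rule]
  · apply adj0_of
    simp [rule]
  · intro k h1 h2
    apply adj0_of
    simp [rule]
  · intro k h1 h2
    refine adj0_near ?_ ?_ (near_kd l k h1 h2)
    · simp only [rule]; split_ifs <;> first | rfl | omega | (exfalso; simp_all; done) | simp_all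
    · simp only [rule]
  · intro p hp
    refine adj0_near ?_ ?_ (near_kk l p hp)
    all_goals
      simp only [List.mem_cons, List.not_mem_nil, or_false] at hp
      rcases hp with rfl | rfl | rfl | rfl | rfl | rfl <;> simp [rule]

theorem f_whH (hR : Rlz (adj rtab σ (iendOf mB nL)) mB nL P) (hn : 1 ≤ nL) (i : ℕ) (b : Bool)
    (h0 : i % 4 = 0) (hi : i + 2 ≤ irOf mB) : Wheel P (.g 2 i) (.h i b) (.hd i) := by
  refine wheel_of hR (fun b => by simp [kn]) (by simp [kn]) (fun b => Or.inr ⟨by omega, by omega⟩)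
    ⟨h0, hi⟩ (fun k h1 h2 => ⟨by simp [kn], ⟨h0, hi, h1, h2⟩⟩) ?_ ?_ ?_ ?_ ?_ ?_ ?_
  · refine ⟨yi, fun b => adj0_of ?_⟩
    simp [rule]
  · intro k h1 h2
    refine ⟨rt yi k, fun b => adj0_of ?_⟩
    simp [rule]
  · apply adj0_of
    simp [rule]
  · apply adj0_of
    simp [rule]
  · intro k h1 h2
    apply adj0_of
    simp [rule]
  · intro k h1 h2
    refine adj0_near ?_ ?_ (near_hh h0 (by omega) (by omega) (by omega))
    · simp only [rule]; split_ifs <;> first | rfl | omega | (exfalso; simp_all; done) | simp_all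
    · simp only [rule]
  · intro p hp
    have : near (.H i p.1) (.H i p.2) = false := by
      simp only [List.mem_cons, List.not_mem_nil, or_false] at hp
      refine near_hh h0 ?_ ?_ ?_ <;> rcases hp with rfl | rfl | rfl | rfl | rfl | rfl <;> simp
    refine adj0_near ?_ ?_ this
    all_goals
      simp only [List.mem_cons, List.not_mem_nil, or_false] at hp
      rcases hp with rfl | rfl | rfl | rfl | rfl | rfl <;> simp [rule]

end

theorem b0 : S_B0 := by
  intro rtab σ mB nL P hm hn hR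
  have hir : irOf mB = 4 * (mB - 1) + 2 := rfl
  have hie : iendOf mB nL = 4 * (mB + nXof mB nL - 1) + 2 := rfl
  have hnx : 300 ≤ nXof mB nL := by unfold nXof; omega
  have hirie : irOf mB + 100 ≤ iendOf mB nL := by omega
  refine
    { hm := hm
      hn := hn
      ring1 := ?_
      ring2 := ?_
      whB := f_whB hR
      whK := fun l b h => f_whK hR l b h
      whH := fun i b h h' => f_whH hR hn i b h h'
      sqa := ?_
      sqb := ?_
      sqc := ?_
      sqd := ?_
      sqm := ?_
      thr := ?_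
      colT := ?_
      rowT := ?_
      diag1 := ?_
      diag2 := ?_
      prH := ?_
      prh := ?_
      pr1 := ?_
      pr2 := ?_
      prC := ?_
      prR := ?_
      prd1 := ?_
      prd2 := ?_
      prn := ?_
      tst := ?_
      dir1 := ?_
      dir2 := ?_ }
  · -- ring1
    intro k d h1 h2
    have hM : 0 < MR := by unfold MR; norm_num
    have v1 : k % (6 * MR) < 6 * MR := Nat.mod_lt _ (by omega)
    have v2 : (k + d) % (6 * MR) < 6 * MR := Nat.mod_lt _ (by omega)
    have key : (k + d) % (6 * MR) = k % (6 * MR) + d ∨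
        (k + d) % (6 * MR) + 6 * MR = k % (6 * MR) + d := by
      rw [Nat.add_mod, Nat.mod_eq_of_lt (show d < 6 * MR by omega)]
      by_cases h : k % (6 * MR) + d < 6 * MR
      · left; exact Nat.mod_eq_of_lt h
      · right
        rw [Nat.mod_eq_sub_mod (by omega), Nat.mod_eq_of_lt (by omega)]
        omega
    have hne : Vx.w (k % (6 * MR)) ≠ Vx.w ((k + d) % (6 * MR)) := by
      intro h
      simp only [Vx.w.injEq] at h
      omega
    by_contra h3
    have h4 := (hR (.w _) (.w _) v1 v2 hne).2 (not_lt.1 h3)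
    simp only [adj, cyc, decide_eq_true_eq] at h4
    omega
  · -- ring2
    intro k hk x hx
    have hxv := val_Cl (mB := mB) (nL := nL) le_rfl hx
    refine (hR (.w k) x hk hxv ?_).1 ?_
    · rcases hx with ⟨b, rfl⟩ | ⟨-, j, -, rfl⟩ <;> simp
    · rcases hx with ⟨b, rfl⟩ | ⟨-, j, -, rfl⟩
      · have e14 : iendOf mB nL + 14 - iendOf mB nL = 14 := by omega
        simp [adj, radj, rsite, e14]
      · have e14 : iendOf mB nL + 14 - iendOf mB nL = 14 := by omega
        simp [adj, radj, rsite, e14]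
  · -- sqa
    intro i hi h4 k hk b
    refine le_of hR (by simp [kn]) (by simp [kn]) ⟨h4, hi, hk⟩ (Or.inl ⟨rfl, hi⟩) (adj0_of' ?_)
    simp [rule]
  · -- sqb
    intro i hi h4 k
    have hk : k % 6 < 6 := Nat.mod_lt _ (by norm_num)
    have hk' : (k + 1) % 6 = (k % 6 + 1) % 6 := by omega
    rw [hk']
    generalize k % 6 = m at hk
    refine le_of hR (by simp [kn]) (by simp [kn]) ⟨h4, hi, hk⟩
      ⟨h4, hi, Nat.mod_lt _ (by norm_num)⟩ ?_
    interval_cases m
    · exact adj0_of (by simp [rule])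
    · exact adj0_of (by simp [rule])
    · exact adj0_of (by simp [rule])
    · exact adj0_of (by simp [rule])
    · exact adj0_of (by simp [rule])
    · exact adj0_of' (by simp [rule])
  · -- sqc
    intro i hi h4 k
    have hk : k % 6 < 6 := Nat.mod_lt _ (by norm_num)
    have hk' : (k + 2) % 6 = (k % 6 + 2) % 6 := by omega
    rw [hk']
    generalize k % 6 = m at hk
    refine gt_of hR (by simp [kn]) (by simp [kn]) ⟨h4, hi, hk⟩
      ⟨h4, hi, Nat.mod_lt _ (by norm_num)⟩ ?_
    refine adj0_near ?_ ?_ ?_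
    · interval_cases m <;> simp [rule]
    · interval_cases m <;> simp [rule]
    · simp only [Vx.site]
      by_cases h : m < 4
      · rw [Nat.mod_eq_of_lt (by omega)]
        exact near_aa h4 hk (by omega) (by omega)
      · rw [near_comm]
        exact near_aa h4 (by omega) hk (by omega)
  · -- sqd
    intro i hi h4 k
    have hk : k % 6 < 6 := Nat.mod_lt _ (by norm_num)
    have hk' : (k + 3) % 6 = (k % 6 + 3) % 6 := by omega
    rw [hk']
    generalize k % 6 = m at hk
    refine gt_of hR (by simp [kn]) (by simp [kn]) ⟨h4, hi, hk⟩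
      ⟨h4, hi, Nat.mod_lt _ (by norm_num)⟩ ?_
    refine adj0_near ?_ ?_ ?_
    · interval_cases m <;> simp [rule]
    · interval_cases m <;> simp [rule]
    · simp only [Vx.site]
      by_cases h : m < 3
      · rw [Nat.mod_eq_of_lt (by omega)]
        exact near_aa h4 hk (by omega) (by omega)
      · rw [near_comm]
        exact near_aa h4 (by omega) hk (by omega)
  · -- sqm
    intro i hi h4 j hj
    refine ⟨?_, ?_, ?_⟩
    · refine gt_of hR (by simp [kn]) (by simp [kn]) ⟨h4, hi, by omega⟩ ⟨h4, hi, hj⟩ (adj0_of' ?_)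
      simp only [rule, if_true]
      rw [if_pos (by omega)]
    · refine gt_of hR (by simp [kn]) (by simp [kn]) ⟨h4, hi, by omega⟩ ⟨h4, hi, hj⟩ (adj0_of' ?_)
      simp only [rule, if_true]
      rw [if_pos (by omega)]
    · refine le_of hR (by simp [kn]) (by simp [kn]) ⟨h4, hi, hj⟩ ⟨h4, hi, by omega⟩ (adj0_of ?_)
      simp only [rule, if_true]
      rw [if_neg (by omega), decide_eq_true (pos_ma j hj)]
  · -- thr
    intro i hi h4 j hj
    have hi' : i ≤ iendOf mB nL := by omega
    refine ⟨?_, ?_, ?_, ?_, ?_⟩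
    · refine le_of hR (by simp [kn]) (by simp [kn]) ⟨h4, hi, hj⟩ ⟨h4, hi', by omega⟩
        (adj0_near ?_ ?_ (near_ta h4 hj).1) <;> simp [rule]
    · refine le_of hR (by simp [kn]) (by simp [kn]) ⟨h4, hi, hj⟩ ⟨h4, hi', by omega⟩
        (adj0_near ?_ ?_ (near_ta h4 hj).2) <;> simp [rule]
    · refine gt_of hR (by simp [kn]) (by simp [kn]) ⟨h4, hi, hj⟩ (Or.inl ⟨rfl, hi'⟩) (adj0_of' ?_)
      simp [rule]
    · refine gt_of hR (by simp [kn]) (by simp [kn]) ⟨h4, hi, hj⟩ ⟨h4, hi', hj⟩ (adj0_of' ?_)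
      simp [rule]
    · refine le_of hR (by simp [kn]) (by simp [kn]) ⟨h4, hi, hj⟩ ⟨h4, hi, by omega⟩ (adj0_of' ?_)
      simp [rule]
  · -- colT
    intro l i b hl hi
    refine tight_of hR (stY l) (fun b => by simp [kn]) (by simp [kn])
      (fun b => Or.inr ⟨by omega, hi⟩) (Or.inr ⟨hl, hi⟩) fun b => adj0_of ?_
    first
      | (simp [rule]; done)
      | (simp only [rule, true_and, and_true, if_true]
         split_ifs <;> first | rfl | omega | (exfalso; simp_all; done) | simp_all)
  · -- rowT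
    intro l i b h0 hl hi
    refine tight_of hR (stX i) (fun b => by simp [kn]) (by simp [kn])
      (fun b => Or.inr ⟨hl, by omega⟩) (Or.inr ⟨hl, hi⟩) fun b => adj0_of ?_
    first
      | (simp [rule]; done)
      | (simp only [rule, true_and, and_true, if_true]
         split_ifs <;> first | rfl | omega | (exfalso; simp_all; done) | simp_all)
  · -- diag1
    intro l i hl hi
    refine gt_of hR (by simp [kn]) (by simp [kn]) (Or.inr ⟨by omega, hi⟩)
      (Or.inr ⟨hl, by omega⟩) (adj0_near ?_ ?_ (near_d1 l i))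
    all_goals
      simp only [rule, isTest, decide_eq_true_eq, true_and, and_true]
      split_ifs <;> first | rfl | omega | (exfalso; simp_all; done) | simp_all
  · -- diag2
    intro l i b hl hi
    refine gt_of hR (by simp [kn]) (by simp [kn]) (Or.inr ⟨by omega, by omega⟩)
      (Or.inr ⟨hl, hi⟩) (adj0_near ?_ ?_ (near_d2 l i))
    all_goals
      simp only [rule, isTest, decide_eq_true_eq, true_and, and_true]
      split_ifs <;> first | rfl | omega | (exfalso; simp_all; done) | simp_all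
  · -- prH
    intro i b h4 hi
    refine tight_of hR (stX (i - 1)) (fun b => by simp [kn]) (by simp [kn])
      (fun b => Or.inl ⟨rfl, by omega⟩) ⟨h4, hi, by omega⟩ fun b => adj0_of ?_
    first
      | (simp [rule]; done)
      | (simp only [rule, true_and, and_true, if_true]
         split_ifs <;> first | rfl | omega | (exfalso; simp_all; done) | simp_all)
  · -- prh
    intro i b h4 hi
    refine tight_of hR (vs (vs Z0i (Yo 2)) yi) (fun b => by simp [kn]) (by simp [kn])
      (fun b => ⟨by omega, by omega⟩) ⟨h4, hi, by omega⟩ fun b => adj0_of' ?_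
    first
      | (simp [rule]; done)
      | (simp only [rule, true_and, and_true, if_true]
         split_ifs <;> first | rfl | omega | (exfalso; simp_all; done) | simp_all)
  · -- pr1
    intro i h4 hi
    have vh : Val mB nL (.h (i - 2) true) := ⟨by omega, by omega⟩
    refine ⟨?_, ?_, ?_, ?_⟩
    · refine le_of hR (by simp [kn]) (by simp [kn]) vh (Or.inl ⟨rfl, by omega⟩) (adj0_of' ?_)
      first
        | (simp [rule]; done)
        | (simp only [rule, true_and, and_true, if_true]
           split_ifs <;> first | rfl | omega | (exfalso; simp_all; done) | simp_all)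
    · refine le_of hR (by simp [kn]) (by simp [kn]) vh ⟨by omega, by omega, by omega, by omega⟩
        (adj0_near ?_ ?_ (near_h h4).1) <;> simp [rule]
    · refine le_of hR (by simp [kn]) (by simp [kn]) vh ⟨by omega, by omega, by omega, by omega⟩
        (adj0_near ?_ ?_ (near_h h4).2.1) <;> simp [rule]
    · refine gt_of hR (by simp [kn]) (by simp [kn]) vh (Or.inl ⟨rfl, by omega⟩)
        (adj0_near ?_ ?_ (near_h h4).2.2)
      · simp [rule]
      · simp only [rule]
        split_ifs <;> first | rfl | omega | (exfalso; simp_all; done) | simp_all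
  · -- pr2
    intro i b h4 hi
    refine le_of hR (by simp [kn]) (by simp [kn]) ⟨h4, hi, by omega⟩
      ⟨by omega, by omega, by omega, by omega⟩ (adj0_of ?_)
    have e : stX (i - 1) = stX 1 := by
      rw [← stX_mod, show (i - 1) % 4 = 1 by omega]
    simp only [rule, e]
    rw [if_pos ⟨trivial, trivial⟩, if_neg (by omega), decide_eq_true pos_bd2]
  · -- prC
    intro l i b h4 hi hl
    refine tight_of hR (stY l) (fun b => by simp [kn]) (by simp [kn])
      (fun b => ⟨h4, hi, by omega⟩) ⟨h4, hi, hl⟩ fun b => adj0_of ?_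
    simp [rule]
  · -- prR
    intro l i b h4 hi h0 hl
    refine tight_of hR (stX (i - 1)) (fun b => by simp [kn]) (by simp [kn])
      (fun b => Or.inr ⟨hl, by omega⟩) ⟨h4, hi, hl⟩ fun b => adj0_of ?_
    first
      | (simp [rule]; done)
      | (simp only [rule, true_and, and_true, if_true]
         split_ifs <;> first | rfl | omega | (exfalso; simp_all; done) | simp_all)
  · -- prd1
    intro l i h4 hi hl
    have e := near_d1 l (i - 1)
    rw [show i - 1 + 1 = i by omega] at e
    refine gt_of hR (by simp [kn]) (by simp [kn]) ⟨h4, hi, by omega⟩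
      (Or.inr ⟨hl, by omega⟩) (adj0_near ?_ ?_ e)
    · simp [rule]
    · simp only [rule, isTest, decide_eq_true_eq, true_and, and_true]
      split_ifs <;> first | rfl | omega | (exfalso; simp_all; done) | simp_all
  · -- prd2
    intro l i b h4 hi hl
    have e := near_d2 l (i - 1)
    rw [show i - 1 + 1 = i by omega] at e
    refine gt_of hR (by simp [kn]) (by simp [kn]) (Or.inr ⟨by omega, by omega⟩)
      ⟨h4, hi, hl⟩ (adj0_near ?_ ?_ e)
    · simp only [rule, isTest, decide_eq_true_eq, true_and, and_true]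
      split_ifs <;> first | rfl | omega | (exfalso; simp_all; done) | simp_all
    · simp [rule]
  · -- prn
    intro l i h4 hi hl
    refine le_of hR (by simp [kn]) (by simp [kn]) ⟨h4, hi, hl⟩ (Or.inr ⟨hl, hi⟩)
      (adj0_near ?_ ?_ (near_self _))
    · simp [rule]
    · simp only [rule, isTest, decide_eq_true_eq, true_and, and_true]
      split_ifs <;> first | rfl | omega | (exfalso; simp_all; done) | simp_all
  · -- tst
    intro p hp j hj z hz
    have vz : Val mB nL z ∧ kn z ≠ 9 ∧
        rule σ (.g (8 * j + 6) (4 * p) true) z = some (σ p j) ∧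
        rule σ (.g (8 * j) (4 * p) true) z = some (!σ p j) := by
      have e1 : 4 * p / 4 = p := by omega
      have e2 : (8 * j + 6) / 8 = j := by omega
      have e3 : 8 * j / 8 = j := by omega
      have e4 : (8 * j + 6) % 8 = 6 := by omega
      have e5 : 8 * j % 8 = 0 := by omega
      rcases hz with rfl | rfl
      · refine ⟨Or.inr ⟨by omega, by omega⟩, by simp [kn], ?_, ?_⟩
        · simp only [rule, isTest, decide_eq_true_eq, tval, e1, e2, e4, if_true, true_and, and_true]
          split_ifs <;> first | rfl | omega | (exfalso; simp_all; done) | simp_all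
        · simp only [rule, isTest, decide_eq_true_eq, tval, e1, e3, e5]
          split_ifs <;> first | rfl | omega | (exfalso; simp_all; done) | simp_all
      · refine ⟨⟨by omega, by omega, by omega⟩, by simp [kn], ?_, ?_⟩
        · simp only [rule, isTest, decide_eq_true_eq, tval, e1, e2, e4, if_true, true_and, and_true]
          split_ifs <;> first | rfl | omega | (exfalso; simp_all; done) | simp_all
        · simp only [rule, isTest, decide_eq_true_eq, tval, e1, e3, e5]
          split_ifs <;> first | rfl | omega | (exfalso; simp_all; done) | simp_all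
    obtain ⟨v1, v2, v3, v4⟩ := vz
    have w1 : Val mB nL (.g (8 * j + 6) (4 * p) true) := Or.inr ⟨by omega, by omega⟩
    have w2 : Val mB nL (.g (8 * j) (4 * p) true) := Or.inr ⟨by omega, by omega⟩
    constructor
    · intro h
      rw [h] at v3 v4
      exact ⟨le_of hR (by simp [kn]) v2 w1 v1 (adj0_of v3),
        gt_of hR (by simp [kn]) v2 w2 v1 (adj0_of v4)⟩
    · intro h
      rw [h] at v3 v4
      exact ⟨gt_of hR (by simp [kn]) v2 w1 v1 (adj0_of v3),
        le_of hR (by simp [kn]) v2 w2 v1 (adj0_of v4)⟩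
  · -- dir1
    intro p hp j hj
    refine gt_of hR (by simp [kn]) (by simp [kn]) (Or.inr ⟨by omega, by omega⟩)
      (Or.inr ⟨by omega, by omega⟩) (adj0_near ?_ ?_ (near_dir p j).1)
    all_goals
      simp only [rule, isTest, decide_eq_true_eq, true_and, and_true]
      split_ifs <;> first | rfl | omega | (exfalso; simp_all; done) | simp_all
  · -- dir2
    intro p hp j hj
    refine le_of hR (by simp [kn]) (by simp [kn]) (Or.inr ⟨by omega, by omega⟩)
      (Or.inr ⟨by omega, by omega⟩) (adj0_near ?_ ?_ (near_dir p j).2)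
    all_goals
      simp only [rule, isTest, decide_eq_true_eq, true_and, and_true]
      split_ifs <;> first | rfl | omega | (exfalso; simp_all; done) | simp_all

end Run7.h840
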