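import Pool.Agent.Run7.h840.Defs

namespace Run7.h840

/-- the sites of the grid in block `(I, J)` -/
def gSites (I J : ℕ) : List Site :=
  (List.range 8).flatMap fun r => (List.range 4).map fun c => Site.G (8 * J + r) (4 * I + c)

/-- extra sites attached to columns of block `I` -/
def eSites (I : ℕ) : List Site :=
  ((List.range 6).map fun k => Site.A (4 * I + 2) k) ++
  ((List.range 3).map fun j => Site.Th (4 * I + 2) j) ++
  ((List.range 4).flatMap fun c => if 4 * I + c = 0 then [] else
    (List.range 5).map fun k => Site.Bd (4 * I + c) (k + 1)) ++
  ((List.range 6).map fun k => Site.H (4 * I) k)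

/-- extra sites attached to rows of block `J` -/
def kSites (J : ℕ) : List Site :=
  (List.range 8).flatMap fun r => (List.range 5).map fun k => Site.Kd (8 * J + r) (k + 1)

/-- all pairs of the two lists are fine -/
def chk (L L' : List (Site × V2)) : Bool :=
  L.all fun p => L'.all fun q => okPair p.1 q.1 p.2 q.2

def wN (L : List Site) : List (Site × V2) := L.map fun s => (s, s.N)

set_option maxRecDepth 100000 in
theorem chkEE : chk (wN (eSites 3)) (wN ((List.range 7).flatMap eSites)) = true := by
  decide +kernel

end Run7.h840

namespace Run7.h840

def gBlk (Is Js : List ℕ) : List Site := Is.flatMap fun I => Js.flatMap fun J => gSites I J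

set_option maxRecDepth 100000 in
theorem chkGG : chk (wN (gSites 3 1)) (wN (gBlk (List.range 7) (List.range 3))) = true := by
  decide +kernel

set_option maxRecDepth 100000 in
theorem chkEG : chk (wN (eSites 3)) (wN (gBlk (List.range 7) (List.range 2))) = true := by
  decide +kernel

set_option maxRecDepth 100000 in
theorem chkKG : chk (wN (kSites 1)) (wN (gBlk (List.range 4) (List.range 3))) = true := by
  decide +kernel

set_option maxRecDepth 100000 in
theorem chkKK : chk (wN (kSites 1)) (wN ((List.range 3).flatMap kSites)) = true := by
  decide +kernel

set_option maxRecDepth 100000 in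
theorem chkKE : chk (wN ((List.range 2).flatMap kSites)) (wN ((List.range 4).flatMap eSites)) = true := by
  decide +kernel

end Run7.h840
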