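import Pool.Agent.Run7.h840.D0
import Pool.Agent.Run7.h840.Check

namespace Run7.h840

/-- the pair is fine -/
def OK (s s' : Site) : Prop :=
  nsq (vs s.N s'.N) ≤ lo2 ∨ hi2 ≤ nsq (vs s.N s'.N) ∨ des s s' = true

theorem ok_iff (s s' : Site) : okPair s s' s.N s'.N = true ↔ OK s s' := by
  unfold okPair OK
  simp only [Bool.or_eq_true, decide_eq_true_eq, or_assoc]

theorem des_comm (s s' : Site) : des s s' = des s' s := by
  unfold des
  rw [Bool.or_comm]

theorem OK.symm {s s' : Site} (h : OK s s') : OK s' s := by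
  unfold OK at *
  rwa [nsq_vs_comm, des_comm]

theorem ok_of_chk {L L' : List Site} (h : chk (wN L) (wN L') = true) {s s' : Site} (hs : s ∈ L)
    (hs' : s' ∈ L') : OK s s' := by
  rw [← ok_iff]
  unfold chk wN at h
  rw [List.all_eq_true] at h
  have h1 := h (s, s.N) (List.mem_map_of_mem (f := fun s => (s, s.N)) hs)
  rw [List.all_eq_true] at h1
  exact h1 (s', s'.N) (List.mem_map_of_mem (f := fun s => (s, s.N)) hs')

/-! ### shifts -/

def shC (t : ℕ) : Site → Site
  | .G l i => .G l (i + 4 * t)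
  | .A i k => .A (i + 4 * t) k
  | .Th i j => .Th (i + 4 * t) j
  | .Bd i k => .Bd (i + 4 * t) k
  | .Kd l k => .Kd l k
  | .H i k => .H (i + 4 * t) k

def shR (t : ℕ) : Site → Site
  | .G l i => .G (l + 8 * t) i
  | .Kd l k => .Kd (l + 8 * t) k
  | s => s

/-- not a `Kd` site, and valid -/
def CS : Site → Prop
  | .Bd i _ => 1 ≤ i
  | .Kd _ _ => False
  | _ => True

def RS' : Site → Prop
  | .G _ _ => True
  | .Kd _ _ => True
  | _ => False

theorem NX_add (i t : ℕ) : NX (i + 4 * t) = va (NX i) (vm (S2 * t) Pc) := by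
  have h1 : (i + 4 * t) / 4 = i / 4 + t := by omega
  have h2 : (i + 4 * t) % 4 = i % 4 := by omega
  unfold NX
  rw [h1, h2]
  unfold va vm
  ext <;> (push_cast; ring)

theorem NY_add (l t : ℕ) : NY (l + 8 * t) = va (NY l) (vm (S2 * t) Pr) := by
  have h1 : (l + 8 * t) / 8 = l / 8 + t := by omega
  have h2 : (l + 8 * t) % 8 = l % 8 := by omega
  unfold NY
  rw [h1, h2]
  unfold va vm
  ext <;> (push_cast; ring)

theorem stX_add (i t : ℕ) : stX (i + 4 * t) = stX i := by
  have h2 : (i + 4 * t) % 4 = i % 4 := by omega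
  unfold stX
  rw [h2]

theorem stY_add (l t : ℕ) : stY (l + 8 * t) = stY l := by
  have h2 : (l + 8 * t) % 8 = l % 8 := by omega
  unfold stY
  rw [h2]

theorem N_shC {s : Site} (hs : CS s) (t : ℕ) : (shC t s).N = va s.N (vm (S2 * t) Pc) := by
  cases s with
  | G l i =>
    simp only [shC, Site.N, NX_add]; unfold va; ext <;> simp only <;> ring
  | A i k =>
    simp only [shC, Site.N, NX_add]; unfold va; ext <;> simp only <;> ring
  | Th i j =>
    simp only [shC, Site.N, NX_add]; unfold va; ext <;> simp only <;> ring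
  | Bd i k =>
    have h1 : i + 4 * t - 1 = (i - 1) + 4 * t := by
      have : 1 ≤ i := hs
      omega
    simp only [shC, Site.N, NX_add, h1, stX_add]; unfold va; ext <;> simp only <;> ring
  | Kd l k => exact absurd hs (by simp [CS])
  | H i k =>
    simp only [shC, Site.N, NX_add]; unfold va; ext <;> simp only <;> ring

theorem N_shR {s : Site} (hs : RS' s) (t : ℕ) : (shR t s).N = va s.N (vm (S2 * t) Pr) := by
  cases s with
  | G l i =>
    simp only [shR, Site.N, NY_add]; unfold va; ext <;> simp only <;> ring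
  | Kd l k =>
    simp only [shR, Site.N, NY_add, stY_add]; unfold va; ext <;> simp only <;> ring
  | A i k => exact absurd hs (by simp [RS'])
  | Th i j => exact absurd hs (by simp [RS'])
  | Bd i k => exact absurd hs (by simp [RS'])
  | H i k => exact absurd hs (by simp [RS'])

theorem vs_va (a b c : V2) : vs (va a c) (va b c) = vs a b := by
  unfold vs va; ext <;> simp only <;> ring

theorem des1_shC {s s' : Site} (hs : CS s) (hs' : CS s') (t : ℕ) :
    des1 (shC t s) (shC t s') = des1 s s' := by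
  cases s <;> cases s' <;> first
    | rfl
    | exact False.elim hs
    | exact False.elim hs'
    | (simp only [shC, des1, isTest]
       rw [Bool.eq_iff_iff]
       simp only [Bool.or_eq_true, decide_eq_true_eq]
       omega)

theorem des1_shR {s s' : Site} (hs : RS' s) (hs' : RS' s') (t : ℕ) :
    des1 (shR t s) (shR t s') = des1 s s' := by
  cases s <;> cases s' <;> first
    | rfl
    | exact False.elim hs
    | exact False.elim hs'
    | (simp only [shR, des1, isTest]
       rw [Bool.eq_iff_iff]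
       simp only [Bool.or_eq_true, decide_eq_true_eq]
       omega)

theorem ok_shC {s s' : Site} (hs : CS s) (hs' : CS s') (t : ℕ) :
    OK (shC t s) (shC t s') ↔ OK s s' := by
  unfold OK des
  rw [N_shC hs, N_shC hs', vs_va, des1_shC hs hs', des1_shC hs' hs]

theorem ok_shR {s s' : Site} (hs : RS' s) (hs' : RS' s') (t : ℕ) :
    OK (shR t s) (shR t s') ↔ OK s s' := by
  unfold OK des
  rw [N_shR hs, N_shR hs', vs_va, des1_shR hs hs', des1_shR hs' hs]

/-! ### membership -/

theorem mem_gSites (l i : ℕ) : Site.G l i ∈ gSites (i / 4) (l / 8) := by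
  unfold gSites
  rw [List.mem_flatMap]
  refine ⟨l % 8, List.mem_range.2 (Nat.mod_lt _ (by norm_num)), ?_⟩
  rw [List.mem_map]
  refine ⟨i % 4, List.mem_range.2 (Nat.mod_lt _ (by norm_num)), ?_⟩
  rw [Nat.div_add_mod, Nat.div_add_mod]

theorem mem_gBlk {l i : ℕ} {Is Js : List ℕ} (h : i / 4 ∈ Is) (h' : l / 8 ∈ Js) :
    Site.G l i ∈ gBlk Is Js := by
  unfold gBlk
  rw [List.mem_flatMap]
  refine ⟨_, h, ?_⟩
  rw [List.mem_flatMap]
  exact ⟨_, h', mem_gSites l i⟩

theorem mem_kSites {l k : ℕ} (hk : 1 ≤ k ∧ k ≤ 5) : Site.Kd l k ∈ kSites (l / 8) := by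
  unfold kSites
  rw [List.mem_flatMap]
  refine ⟨l % 8, List.mem_range.2 (Nat.mod_lt _ (by norm_num)), ?_⟩
  rw [List.mem_map]
  refine ⟨k - 1, List.mem_range.2 (by omega), ?_⟩
  rw [Nat.div_add_mod, Nat.sub_add_cancel hk.1]

/-- valid extra sites -/
def ES : Site → Prop
  | .A i k => i % 4 = 2 ∧ k < 6
  | .Th i j => i % 4 = 2 ∧ j < 3
  | .Bd i k => 1 ≤ i ∧ 1 ≤ k ∧ k ≤ 5
  | .H i k => i % 4 = 0 ∧ k < 6
  | _ => False

theorem mem_eSites {s : Site} (hs : ES s) : s ∈ eSites (s.ci / 4) := by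
  cases s with
  | G l i => exact absurd hs (by simp [ES])
  | Kd l k => exact absurd hs (by simp [ES])
  | A i k =>
    obtain ⟨h1, h2⟩ := hs
    unfold eSites
    simp only [Site.ci, List.mem_append, List.mem_map, List.mem_range]
    left; left; left
    exact ⟨k, h2, by rw [show 4 * (i / 4) + 2 = i by omega]⟩
  | Th i j =>
    obtain ⟨h1, h2⟩ := hs
    unfold eSites
    simp only [Site.ci, List.mem_append, List.mem_map, List.mem_range]
    left; left; right
    exact ⟨j, h2, by rw [show 4 * (i / 4) + 2 = i by omega]⟩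
  | Bd i k =>
    obtain ⟨h1, h2, h3⟩ := hs
    unfold eSites
    simp only [Site.ci, List.mem_append, List.mem_flatMap, List.mem_map, List.mem_range]
    left; right
    refine ⟨i % 4, Nat.mod_lt _ (by norm_num), ?_⟩
    have e : 4 * (i / 4) + i % 4 = i := by omega
    simp only [e]
    rw [if_neg (by omega), List.mem_map]
    exact ⟨k - 1, List.mem_range.2 (by omega), by rw [Nat.sub_add_cancel h2]⟩
  | H i k =>
    obtain ⟨h1, h2⟩ := hs
    unfold eSites
    simp only [Site.ci, List.mem_append, List.mem_map, List.mem_range]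
    right
    exact ⟨k, h2, by rw [show 4 * (i / 4) = i by omega]⟩

theorem CS_of_ES {s : Site} (hs : ES s) : CS s := by
  cases s <;> first | trivial | exact hs.1 | exact False.elim hs

/-! ### the cases -/

theorem okGG (l i l' i' : ℕ) (hw : win (.G l i) (.G l' i') = true) :
    OK (.G l i) (.G l' i') := by
  replace hw := of_decide_eq_true hw
  simp only [Site.ci, Site.ri] at hw
  rw [← ok_shC (by trivial) (by trivial) 3, ← ok_shR (by trivial) (by trivial) 1]
  have e1 : shR 1 (shC 3 (.G l i)) = shR (l / 8) (shC (i / 4) (.G (8 + l % 8) (12 + i % 4))) := by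
    simp only [shR, shC, Site.G.injEq, and_true]; omega
  have e2 : shR 1 (shC 3 (.G l' i')) =
      shR (l / 8) (shC (i / 4) (.G (l' + 8 - 8 * (l / 8)) (i' + 12 - 4 * (i / 4)))) := by
    simp only [shR, shC, Site.G.injEq, and_true]; omega
  rw [e1, e2, ok_shR (by trivial) (by trivial), ok_shC (by trivial) (by trivial)]
  refine ok_of_chk chkGG (L := gSites 3 1) ?_ (mem_gBlk ?_ ?_)
  · have := mem_gSites (8 + l % 8) (12 + i % 4)
    rwa [show (12 + i % 4) / 4 = 3 by omega, show (8 + l % 8) / 8 = 1 by omega] at this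
  · rw [List.mem_range]; omega
  · rw [List.mem_range]; omega

/-- transport of an extra site to block `3` -/
theorem ES_canon {s : Site} (hs : ES s) : ∃ s0, ES s0 ∧ s0.ci / 4 = 3 ∧
    shC 3 s = shC (s.ci / 4) s0 ∧ s0.ri = s.ri := by
  cases s with
  | G l i => exact absurd hs (by simp [ES])
  | Kd l k => exact absurd hs (by simp [ES])
  | A i k =>
    refine ⟨.A (12 + i % 4) k, ⟨by have := hs.1; omega, hs.2⟩, ?_, ?_, rfl⟩
    · simp only [Site.ci]; omega
    · simp only [Site.ci, shC, Site.A.injEq, and_true]; omega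
  | Th i k =>
    refine ⟨.Th (12 + i % 4) k, ⟨by have := hs.1; omega, hs.2⟩, ?_, ?_, rfl⟩
    · simp only [Site.ci]; omega
    · simp only [Site.ci, shC, Site.Th.injEq, and_true]; omega
  | Bd i k =>
    refine ⟨.Bd (12 + i % 4) k, ⟨by omega, hs.2⟩, ?_, ?_, rfl⟩
    · simp only [Site.ci]; omega
    · simp only [Site.ci, shC, Site.Bd.injEq, and_true]; omega
  | H i k =>
    refine ⟨.H (12 + i % 4) k, ⟨by have := hs.1; omega, hs.2⟩, ?_, ?_, rfl⟩
    · simp only [Site.ci]; omega
    · simp only [Site.ci, shC, Site.H.injEq, and_true]; omega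

theorem ES_canon' {s : Site} (hs : ES s) {I : ℕ} (h1 : I ≤ s.ci / 4) (h2 : s.ci / 4 ≤ I + 3) :
    ∃ s0, ES s0 ∧ s0.ci / 4 < 7 ∧ shC 3 s = shC I s0 := by
  cases s with
  | G l i => exact absurd hs (by simp [ES])
  | Kd l k => exact absurd hs (by simp [ES])
  | A i k =>
    simp only [Site.ci] at h1 h2
    refine ⟨.A (i + 12 - 4 * I) k, ⟨by have := hs.1; omega, hs.2⟩, ?_, ?_⟩
    · simp only [Site.ci]; omega
    · simp only [shC, Site.A.injEq, and_true]; omega
  | Th i k =>
    simp only [Site.ci] at h1 h2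
    refine ⟨.Th (i + 12 - 4 * I) k, ⟨by have := hs.1; omega, hs.2⟩, ?_, ?_⟩
    · simp only [Site.ci]; omega
    · simp only [shC, Site.Th.injEq, and_true]; omega
  | Bd i k =>
    simp only [Site.ci] at h1 h2
    refine ⟨.Bd (i + 12 - 4 * I) k, ⟨by omega, hs.2⟩, ?_, ?_⟩
    · simp only [Site.ci]; omega
    · simp only [shC, Site.Bd.injEq, and_true]; omega
  | H i k =>
    simp only [Site.ci] at h1 h2
    refine ⟨.H (i + 12 - 4 * I) k, ⟨by have := hs.1; omega, hs.2⟩, ?_, ?_⟩
    · simp only [Site.ci]; omega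
    · simp only [shC, Site.H.injEq, and_true]; omega

theorem okEE' {s s' : Site} (hs : ES s) (hs' : ES s') (h1 : s.ci / 4 ≤ s'.ci / 4)
    (h2 : s'.ci / 4 ≤ s.ci / 4 + 3) : OK s s' := by
  obtain ⟨s0, a1, a2, a3, -⟩ := ES_canon hs
  obtain ⟨s1, b1, b2, b3⟩ := ES_canon' hs' h1 h2
  rw [← ok_shC (CS_of_ES hs) (CS_of_ES hs') 3, a3, b3, ok_shC (CS_of_ES a1) (CS_of_ES b1)]
  refine ok_of_chk chkEE (L := eSites 3) ?_ ?_
  · have := mem_eSites a1
    rwa [a2] at this
  · rw [List.mem_flatMap]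
    exact ⟨_, List.mem_range.2 b2, mem_eSites b1⟩

theorem okEE {s s' : Site} (hs : ES s) (hs' : ES s') (hw : win s s' = true) : OK s s' := by
  replace hw := of_decide_eq_true hw
  rcases le_total (s.ci / 4) (s'.ci / 4) with h | h
  · exact okEE' hs hs' h hw.2.1
  · exact (okEE' hs' hs h hw.1).symm

theorem ri_ES {s : Site} (hs : ES s) : s.ri / 8 = 0 := by
  cases s <;> first | exact False.elim hs | (simp [Site.ri])

theorem okEG {s : Site} (hs : ES s) (l i : ℕ) (hw : win s (.G l i) = true) : OK s (.G l i) := by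
  replace hw : s.ci / 4 ≤ i / 4 + 3 ∧ i / 4 ≤ s.ci / 4 + 3 ∧ s.ri / 8 ≤ l / 8 + 1 ∧
    l / 8 ≤ s.ri / 8 + 1 := of_decide_eq_true hw
  rw [ri_ES hs] at hw
  obtain ⟨s0, a1, a2, a3, -⟩ := ES_canon hs
  have e2 : shC 3 (.G l i) = shC (s.ci / 4) (.G l (i + 12 - 4 * (s.ci / 4))) := by
    simp only [shC, Site.G.injEq, true_and]; omega
  rw [← ok_shC (CS_of_ES hs) (by trivial) 3, a3, e2, ok_shC (CS_of_ES a1) (by trivial)]
  refine ok_of_chk chkEG (L := eSites 3) ?_ (mem_gBlk ?_ ?_)
  · have := mem_eSites a1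
    rwa [a2] at this
  · rw [List.mem_range]; omega
  · rw [List.mem_range]; omega

theorem okKG {l k l' i' : ℕ} (hk : 1 ≤ k ∧ k ≤ 5) (hw : win (.Kd l k) (.G l' i') = true) :
    OK (.Kd l k) (.G l' i') := by
  replace hw := of_decide_eq_true hw
  simp only [Site.ci, Site.ri] at hw
  rw [← ok_shR (by trivial) (by trivial) 1]
  have e1 : shR 1 (.Kd l k) = shR (l / 8) (.Kd (8 + l % 8) k) := by
    simp only [shR, Site.Kd.injEq, and_true]; omega
  have e2 : shR 1 (.G l' i') = shR (l / 8) (.G (l' + 8 - 8 * (l / 8)) i') := by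
    simp only [shR, Site.G.injEq, and_true]; omega
  rw [e1, e2, ok_shR (by trivial) (by trivial)]
  refine ok_of_chk chkKG (L := kSites 1) ?_ (mem_gBlk ?_ ?_)
  · have := mem_kSites (l := 8 + l % 8) hk
    rwa [show (8 + l % 8) / 8 = 1 by omega] at this
  · rw [List.mem_range]; omega
  · rw [List.mem_range]; omega

theorem okKK {l k l' k' : ℕ} (hk : 1 ≤ k ∧ k ≤ 5) (hk' : 1 ≤ k' ∧ k' ≤ 5)
    (hw : win (.Kd l k) (.Kd l' k') = true) : OK (.Kd l k) (.Kd l' k') := by
  replace hw := of_decide_eq_true hw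
  simp only [Site.ci, Site.ri] at hw
  rw [← ok_shR (by trivial) (by trivial) 1]
  have e1 : shR 1 (.Kd l k) = shR (l / 8) (.Kd (8 + l % 8) k) := by
    simp only [shR, Site.Kd.injEq, and_true]; omega
  have e2 : shR 1 (.Kd l' k') = shR (l / 8) (.Kd (l' + 8 - 8 * (l / 8)) k') := by
    simp only [shR, Site.Kd.injEq, and_true]; omega
  rw [e1, e2, ok_shR (by trivial) (by trivial)]
  refine ok_of_chk chkKK (L := kSites 1) ?_ ?_
  · have := mem_kSites (l := 8 + l % 8) hk
    rwa [show (8 + l % 8) / 8 = 1 by omega] at this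
  · rw [List.mem_flatMap]
    exact ⟨_, List.mem_range.2 (by omega), mem_kSites hk'⟩

theorem okKE {l k : ℕ} (hk : 1 ≤ k ∧ k ≤ 5) {s : Site} (hs : ES s)
    (hw : win (.Kd l k) s = true) : OK (.Kd l k) s := by
  replace hw : 0 / 4 ≤ s.ci / 4 + 3 ∧ s.ci / 4 ≤ 0 / 4 + 3 ∧ l / 8 ≤ s.ri / 8 + 1 ∧
    s.ri / 8 ≤ l / 8 + 1 := of_decide_eq_true hw
  rw [ri_ES hs] at hw
  refine ok_of_chk chkKE ?_ ?_
  · rw [List.mem_flatMap]
    exact ⟨_, List.mem_range.2 (by omega), mem_kSites hk⟩
  · rw [List.mem_flatMap]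
    exact ⟨_, List.mem_range.2 (by omega), mem_eSites hs⟩

/-- the offset of a site with respect to the origin of its block is bounded -/
def Bdd (v : V2) : Prop :=
  -35000000000000000 ≤ v.1 ∧ v.1 ≤ 65000000000000000 ∧ -35000000000000000 ≤ v.2 ∧
    v.2 ≤ 120000000000000000

instance (v : V2) : Decidable (Bdd v) := by unfold Bdd; infer_instance

theorem bG : ∀ c < 4, ∀ r < 8, Bdd (va (vm S2 (Xo c)) (vm S2 (Yo r))) := by decide +kernel
theorem bA : ∀ c < 4, ∀ k < 6, Bdd (va (vm S2 (Xo c)) (rt psii k)) := by decide +kernel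
theorem bT : ∀ c < 4, ∀ j < 3, Bdd (va (vm S2 (Xo c)) (vm S2 (thi j))) := by decide +kernel
theorem bB : ∀ c < 4, ∀ c' < 4, ∀ k < 6, Bdd (va (vm S2 (Xo c)) (rt (vn (stX c')) k)) := by
  decide +kernel
theorem bK : ∀ r < 8, ∀ k < 6, 1 ≤ k → Bdd (va (vm S2 (Yo r)) (rt (stY r) k)) := by decide +kernel
theorem bH : ∀ k < 6, Bdd (va (va (vm S2 (Xo 0)) (vm S2 (Yo 2))) (rt yi k)) := by decide +kernel

theorem stX_mod (i : ℕ) : stX (i % 4) = stX i := by unfold stX; rw [Nat.mod_mod]
theorem stY_mod (l : ℕ) : stY (l % 8) = stY l := by unfold stY; rw [Nat.mod_mod]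

/-- origin of a block -/
def org (s : Site) : V2 := vm S2 (va (vm ((s.ci / 4 : ℕ) : ℤ) Pc) (vm ((s.ri / 8 : ℕ) : ℤ) Pr))

theorem bnd {s : Site} (hs : SVal s) : Bdd (vs s.N (org s)) := by
  cases s with
  | G l i =>
    have h := bG (i % 4) (Nat.mod_lt _ (by norm_num)) (l % 8) (Nat.mod_lt _ (by norm_num))
    have e : vs (Site.G l i).N (org (.G l i)) = va (vm S2 (Xo (i % 4))) (vm S2 (Yo (l % 8))) := by
      simp only [Site.N, NX, NY, org, Site.ci, Site.ri, vs, va, vm]
      ext <;> simp only <;> ring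
    rw [e]; exact h
  | A i k =>
    have h := bA (i % 4) (Nat.mod_lt _ (by norm_num)) k hs.2
    have e : vs (Site.A i k).N (org (.A i k)) = va (vm S2 (Xo (i % 4))) (rt psii k) := by
      simp only [Site.N, NX, NY, org, Site.ci, Site.ri, vs, va, vm]
      ext <;> simp only [Nat.zero_div, Nat.cast_zero] <;> ring
    rw [e]; exact h
  | Th i j =>
    have h := bT (i % 4) (Nat.mod_lt _ (by norm_num)) j hs.2
    have e : vs (Site.Th i j).N (org (.Th i j)) = va (vm S2 (Xo (i % 4))) (vm S2 (thi j)) := by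
      simp only [Site.N, NX, NY, org, Site.ci, Site.ri, vs, va, vm]
      ext <;> simp only [Nat.zero_div, Nat.cast_zero] <;> ring
    rw [e]; exact h
  | Bd i k =>
    have h := bB (i % 4) (Nat.mod_lt _ (by norm_num)) ((i - 1) % 4) (Nat.mod_lt _ (by norm_num)) k
      (by have := hs.2.2; omega)
    rw [stX_mod] at h
    have e : vs (Site.Bd i k).N (org (.Bd i k)) =
        va (vm S2 (Xo (i % 4))) (rt (vn (stX (i - 1))) k) := by
      simp only [Site.N, NX, NY, org, Site.ci, Site.ri, vs, va, vm]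
      ext <;> simp only [Nat.zero_div, Nat.cast_zero] <;> ring
    rw [e]; exact h
  | Kd l k =>
    have h := bK (l % 8) (Nat.mod_lt _ (by norm_num)) k (by have := hs.2; omega) hs.1
    rw [stY_mod] at h
    have e : vs (Site.Kd l k).N (org (.Kd l k)) = va (vm S2 (Yo (l % 8))) (rt (stY l) k) := by
      simp only [Site.N, NX, NY, org, Site.ci, Site.ri, vs, va, vm]
      ext <;> simp only [Nat.zero_div, Nat.cast_zero] <;> ring
    rw [e]; exact h
  | H i k =>
    have h := bH k hs.2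
    rw [← hs.1] at h
    have e : vs (Site.H i k).N (org (.H i k)) =
        va (va (vm S2 (Xo (i % 4))) (vm S2 (Yo 2))) (rt yi k) := by
      have h2 : (2 : ℕ) / 8 = 0 := by norm_num
      have h3 : (2 : ℕ) % 8 = 2 := by norm_num
      simp only [Site.N, NX, NY, org, Site.ci, Site.ri, vs, va, vm, h2, h3]
      ext <;> simp only [Nat.cast_zero] <;> ring
    rw [e]; exact h

theorem far1 {a b : V2} (h : 32109090000000000 ≤ a.2 - b.2 ∨ 32109090000000000 ≤ b.2 - a.2 ∨
    32109090000000000 ≤ a.1 - b.1 ∨ 32109090000000000 ≤ b.1 - a.1) : hi2 ≤ nsq (vs a b) := by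
  unfold hi2 nsq vs
  simp only
  rcases h with h | h | h | h <;> nlinarith [sq_nonneg (a.1 - b.1), sq_nonneg (a.2 - b.2)]

theorem far {s s' : Site} (hs : SVal s) (hs' : SVal s') (hw : win s s' = false) :
    hi2 ≤ nsq (vs s.N s'.N) := by
  have hw' := of_decide_eq_false hw
  have h1 := bnd hs
  have h2 := bnd hs'
  apply far1
  simp only [Bdd, vs, org, va, vm, Pc, Pr, Z0i, s1i, s2i, n0i, g6i, g7i, S2] at h1 h2
  generalize s.ci / 4 = I at *
  generalize s'.ci / 4 = I' at *
  generalize s.ri / 8 = J at *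
  generalize s'.ri / 8 = J' at *
  generalize s.N.1 = x at *
  generalize s.N.2 = y at *
  generalize s'.N.1 = x' at *
  generalize s'.N.2 = y' at *
  omega

theorem SVal_cases {s : Site} (hs : SVal s) :
    (∃ l i, s = .G l i) ∨ (∃ l k, (1 ≤ k ∧ k ≤ 5) ∧ s = .Kd l k) ∨ ES s := by
  cases s with
  | G l i => exact Or.inl ⟨l, i, rfl⟩
  | Kd l k => exact Or.inr (Or.inl ⟨l, k, hs, rfl⟩)
  | A i k => exact Or.inr (Or.inr hs)
  | Th i k => exact Or.inr (Or.inr hs)
  | Bd i k => exact Or.inr (Or.inr hs)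
  | H i k => exact Or.inr (Or.inr hs)

theorem ok_win {s s' : Site} (hs : SVal s) (hs' : SVal s') (hw : win s s' = true) : OK s s' := by
  have hw' : win s' s = true := by rw [win_comm]; exact hw
  rcases SVal_cases hs with ⟨l, i, rfl⟩ | ⟨l, k, hk, rfl⟩ | h
  · rcases SVal_cases hs' with ⟨l', i', rfl⟩ | ⟨l', k', hk', rfl⟩ | h'
    · exact okGG _ _ _ _ hw
    · exact (okKG hk' hw').symm
    · exact (okEG h' _ _ hw').symm
  · rcases SVal_cases hs' with ⟨l', i', rfl⟩ | ⟨l', k', hk', rfl⟩ | h'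
    · exact okKG hk hw
    · exact okKK hk hk' hw
    · exact okKE hk h' hw
  · rcases SVal_cases hs' with ⟨l', i', rfl⟩ | ⟨l', k', hk', rfl⟩ | h'
    · exact okEG h _ _ hw
    · exact (okKE hk' h hw').symm
    · exact okEE h h' hw

theorem nc : S_NC := by
  intro s s' hs hs' hd
  by_cases hw : win s s' = true
  · have h := ok_win hs hs' hw
    unfold OK at h
    rw [hd] at h
    simp only [Bool.false_eq_true, or_false] at h
    unfold near
    rw [hw, Bool.true_and]
    rcases h with h | h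
    · left
      refine ⟨?_, h⟩
      rw [decide_eq_true_iff]
      refine lt_of_le_of_lt h ?_
      unfold lo2 SS
      norm_num
    · right
      refine ⟨?_, h⟩
      rw [decide_eq_false_iff_not, not_lt]
      refine le_trans ?_ h
      unfold hi2 SS
      norm_num
  · rw [Bool.not_eq_true] at hw
    right
    refine ⟨?_, far hs hs' hw⟩
    unfold near
    rw [hw, Bool.false_and]

end Run7.h840
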