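import Pool.Agent.Run7.h840.D0

namespace Run7.h840

open Complex

theorem cS_sub_sq (a b : V2) : ‖cS a - cS b‖ ^ 2 = (nsq (vs a b) : ℝ) / (SS : ℝ) ^ 2 := by
  rw [← Complex.normSq_eq_norm_sq, Complex.normSq_apply]
  unfold cS nsq vs
  have h : ((SS : ℤ) : ℝ) ≠ 0 := by unfold SS; norm_num
  push_cast
  simp only [Complex.sub_re, Complex.sub_im]
  field_simp

theorem sval_site {mB nL : ℕ} {x : Vx} (hx : Val mB nL x) (hx' : ∀ k, x ≠ .w k) :
    SVal x.site := by
  rcases x with ⟨l, i, b⟩ | ⟨l, i, b⟩ | ⟨i, j⟩ | ⟨i, k⟩ | ⟨i, j⟩ | ⟨i, k⟩ | ⟨l, k⟩ | ⟨i, b⟩ | ⟨i, k⟩ | k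
  · trivial
  · trivial
  · trivial
  · exact ⟨hx.1, hx.2.2⟩
  · exact ⟨hx.1, hx.2.2⟩
  · exact ⟨hx.1, hx.2.2.1, hx.2.2.2⟩
  · exact ⟨hx.2.1, hx.2.2⟩
  · exact ⟨hx.1, by norm_num⟩
  · exact ⟨hx.1, by have := hx.2.2.2; omega⟩
  · exact absurd rfl (hx' k)

theorem kn_of_rule {σ : ℕ → ℕ → Bool} {x y : Vx} {v : Bool} (h : rule σ x y = some v) :
    (kn x ≤ 2 ∧ kn y ≤ 2) ∨ (kn y = 5 ∨ kn y = 6) ∨ (kn y = 3 ∨ kn y = 4 ∨ kn y = 7 ∨ kn y = 8) := by
  rcases x with ⟨l, i, b⟩ | ⟨l, i, b⟩ | ⟨i, j⟩ | ⟨i, k⟩ | ⟨i, j⟩ | ⟨i, k⟩ | ⟨l, k⟩ | ⟨i, b⟩ | ⟨i, k⟩ | k <;>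
  rcases y with ⟨l', i', b'⟩ | ⟨l', i', b'⟩ | ⟨i', j'⟩ | ⟨i', k'⟩ | ⟨i', j'⟩ | ⟨i', k'⟩ | ⟨l', k'⟩ | ⟨i', b'⟩ | ⟨i', k'⟩ | k' <;>
  simp [rule, kn] at h ⊢

theorem c7 (hNC : S_NC) (hD : S_desrule) (hcl : S_close) (ha : S_C5a) (hb : S_C5b)
    (hc : S_C5c) (h6b : S_C6b) (h6c : S_C6c) : S_C7 := by
  intro σ mB nL q hq x y hx hy hne
  have key : ∀ x y : Vx, Val mB nL x → Val mB nL y → ∀ v, rule σ x y = some v →
      (v = true ↔ ‖q.pos x - q.pos y‖ ≤ 1) := by
    intro x y hx hy v hv
    rcases kn_of_rule hv with h | h | h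
    · exact ha σ mB nL q hq x y h hx hy v hv
    · exact hb σ mB nL q hq x y h hx hy v hv
    · exact hc σ mB nL q hq x y h hx hy v hv
  by_cases hxw : ∃ k, x = .w k
  · obtain ⟨k, rfl⟩ := hxw
    by_cases hyw : ∃ k, y = .w k
    · obtain ⟨k', rfl⟩ := hyw
      have h1 := h6b q.u0 hq.u0 k hx k' hy (fun h => hne (by rw [h]))
      have h2 : q.pos (.w k) - q.pos (.w k') = rp q.u0 k - rp q.u0 k' := by
        simp only [Par.pos]; ring
      rw [h2]
      exact h1
    · have hyw' : ∀ k, y ≠ .w k := fun k h => hyw ⟨k, h⟩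
      have h1 := h6c σ mB nL q hq y hy hyw' k hx
      rw [← h1, hq.hi]
      cases y <;> first | exact Iff.rfl | exact absurd rfl (hyw' _)
  · have hxw' : ∀ k, x ≠ .w k := fun k h => hxw ⟨k, h⟩
    by_cases hyw : ∃ k, y = .w k
    · obtain ⟨k, rfl⟩ := hyw
      have h1 := h6c σ mB nL q hq x hx hxw' k hy
      rw [norm_sub_rev, ← h1, hq.hi]
      cases x <;> first | exact Iff.rfl | exact absurd rfl (hxw' _)
    · have hyw' : ∀ k, y ≠ .w k := fun k h => hyw ⟨k, h⟩
      have e : adj (rtabOf q.u0) σ (iendOf mB nL) x y = adj0 σ x y := by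
        cases x <;> first
          | exact absurd rfl (hxw' _)
          | (cases y <;> first | exact absurd rfl (hyw' _) | rfl)
      rw [e]
      unfold adj0
      cases h : rule σ x y with
      | some v => exact key x y hx hy v h
      | none =>
        cases h' : rule σ y x with
        | some v =>
          simp only
          rw [norm_sub_rev]
          exact key y x hy hx v h'
        | none =>
          simp only
          have h1 := hNC x.site y.site (sval_site hx hxw') (sval_site hy hyw')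
            (hD σ mB nL x y hx hy hxw' hyw' h h')
          have c1 := hcl σ mB nL q hq x hx hxw'
          have c2 := hcl σ mB nL q hq y hy hyw'
          have e1 := cS_sub_sq x.site.N y.site.N
          have t1 : q.pos x - q.pos y = (q.pos x - cS x.site.N) - (q.pos y - cS y.site.N) +
              (cS x.site.N - cS y.site.N) := by ring
          have t2 : cS x.site.N - cS y.site.N = (q.pos x - q.pos y) - (q.pos x - cS x.site.N) +
              (q.pos y - cS y.site.N) := by ring
          have hSS : (0 : ℝ) < (SS : ℝ) ^ 2 := by unfold SS; norm_num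
          rcases h1 with ⟨h1, h2⟩ | ⟨h1, h2⟩
          · rw [h1]
            have h3 : ‖cS x.site.N - cS y.site.N‖ ≤ 998 / 1000 := by
              apply le_of_sq_le_sq _ (by norm_num)
              rw [e1, div_le_iff₀ hSS]
              have h4 : ((nsq (vs x.site.N y.site.N) : ℤ) : ℝ) ≤ ((lo2 : ℤ) : ℝ) := by
                exact_mod_cast h2
              refine h4.trans ?_
              unfold lo2 SS
              norm_num
            have h5 : ‖q.pos x - q.pos y‖ ≤ 1 := by
              rw [t1]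
              have := norm_add_le ((q.pos x - cS x.site.N) - (q.pos y - cS y.site.N))
                (cS x.site.N - cS y.site.N)
              have := norm_sub_le (q.pos x - cS x.site.N) (q.pos y - cS y.site.N)
              norm_num at c1 c2
              linarith
            simp [h5]
          · rw [h1]
            have h3 : 1002 / 1000 ≤ ‖cS x.site.N - cS y.site.N‖ := by
              apply le_of_sq_le_sq _ (norm_nonneg _)
              rw [e1, le_div_iff₀ hSS]
              have h4 : ((hi2 : ℤ) : ℝ) ≤ ((nsq (vs x.site.N y.site.N) : ℤ) : ℝ) := by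
                exact_mod_cast h2
              refine le_trans ?_ h4
              unfold hi2 SS
              norm_num
            have h5 : 1 < ‖q.pos x - q.pos y‖ := by
              rw [t2] at h3
              have := norm_add_le ((q.pos x - q.pos y) - (q.pos x - cS x.site.N))
                (q.pos y - cS y.site.N)
              have := norm_sub_le (q.pos x - q.pos y) (q.pos x - cS x.site.N)
              norm_num at c1 c2
              linarith
            simp [not_le.2 h5]

end Run7.h840
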