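import Mathlib

/-!
# Bounded degree unit disk graph recognition: the graph

The graph of a `Bool`-valued matrix `σ p j` (`p` points, `j` lines).  All vertices sit near
*sites*; the nominal position of a site is an integer vector, in units of `1 / SS`.
Two vertices at different sites are adjacent if their nominal distance is less than one
(i.e. less than `SS`), except for *designated* pairs (nominal distance exactly one, up to
rounding), for which `rule` gives the adjacency.
-/

namespace Run7.h840

/-- Integer vectors. -/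
abbrev V2 := ℤ × ℤ

/-- Scale of the directions. -/
def S1 : ℤ := 320450000
/-- Scale of the sixth roots of unity. -/
def S2 : ℤ := 100000000
/-- Scale of the nominal positions: `SS = S1 * S2`. -/
def SS : ℤ := 32045000000000000

def va (a b : V2) : V2 := (a.1 + b.1, a.2 + b.2)
def vs (a b : V2) : V2 := (a.1 - b.1, a.2 - b.2)
def vn (a : V2) : V2 := (-a.1, -a.2)
def vm (k : ℤ) (a : V2) : V2 := (k * a.1, k * a.2)
/-- dot product -/
def idot (a b : V2) : ℤ := a.1 * b.1 + a.2 * b.2
/-- squared length -/
def nsq (a : V2) : ℤ := a.1 * a.1 + a.2 * a.2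
/-- rotation by a right angle (multiplication by `I`) -/
def rot (a : V2) : V2 := (-a.2, a.1)

/-! ### Nominal directions, in units of `1 / S1` -/

def Z0i : V2 := (-210000, -18560000)
def s1i : V2 := (316680000, 49010000)
def s2i : V2 := (319000000, -30450000)
def n0i : V2 := (72590000, 312120000)
def g1i : V2 := (-100750000, 304200000)
def g4i : V2 := (-78880000, 310590000)
def g6i : V2 := (-22770000, 319640000)
def g7i : V2 := (-76560000, 311170000)
def psii : V2 := (221000000, -232050000)
def nui : V2 := (157080000, 279310000)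
def c1i : V2 := (320190082, -12904028)
def c2i : V2 := (320400082, 5655972)
def g0i : V2 := (27514902, 319266554)
def g3i : V2 := (-110147201, 300924902)
def yi : V2 := (15141639, -320092070)
def thi : ℕ → V2
  | 0 => (195520000, 253890000)
  | 1 => (-114750000, 299200000)
  | _ => (-299200000, 114750000)

/-- approximate sixth roots of unity, in units of `1 / S2` -/
def omi : ℕ → V2
  | 0 => (100000000, 0)
  | 1 => (50000000, 86602540)
  | 2 => (-50000000, 86602540)
  | 3 => (-100000000, 0)
  | 4 => (-50000000, -86602540)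
  | _ => (50000000, -86602540)

/-- multiplication by the `k`-th sixth root of unity: from units `1/S1` to units `1/SS` -/
def rt (a : V2) (k : ℕ) : V2 :=
  (a.1 * (omi k).1 - a.2 * (omi k).2, a.1 * (omi k).2 + a.2 * (omi k).1)

/-- `X_{i+1} - X_i`, units `1/S1` -/
def stX (i : ℕ) : V2 :=
  match i % 4 with
  | 0 => c1i
  | 1 => vs Z0i c1i
  | 2 => s1i
  | _ => s2i

/-- `Y_{l+1} - Y_l`, units `1/S1` -/
def stY (l : ℕ) : V2 :=
  match l % 8 with
  | 0 => g0i
  | 1 => vn g1i
  | 2 => vs (va (vs n0i Z0i) g1i) g0i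
  | 3 => g3i
  | 4 => vn g4i
  | 5 => vs (va (va n0i Z0i) g4i) g3i
  | 6 => g6i
  | _ => g7i

/-- column offsets within a period, units `1/S1` -/
def Xo (c : ℕ) : V2 :=
  match c with
  | 0 => (0, 0)
  | 1 => c1i
  | 2 => Z0i
  | _ => va Z0i s1i

/-- row offsets within a period, units `1/S1` -/
def Yo (r : ℕ) : V2 :=
  match r with
  | 0 => (0, 0)
  | 1 => g0i
  | 2 => vs g0i g1i
  | 3 => vs n0i Z0i
  | 4 => va (vs n0i Z0i) g3i
  | 5 => vs (va (vs n0i Z0i) g3i) g4i
  | 6 => vm 2 n0i
  | _ => va (vm 2 n0i) g6i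

/-- period of the columns -/
def Pc : V2 := va (va Z0i s1i) s2i
/-- period of the rows -/
def Pr : V2 := va (va (vm 2 n0i) g6i) g7i

/-- nominal position of column `i`, units `1/SS` -/
def NX (i : ℕ) : V2 := vm S2 (va (vm (i / 4 : ℕ) Pc) (Xo (i % 4)))
/-- nominal position of row `l`, units `1/SS` -/
def NY (l : ℕ) : V2 := vm S2 (va (vm (l / 8 : ℕ) Pr) (Yo (l % 8)))

/-! ### Sites -/

inductive Site
  | G (l i : ℕ)
  | A (i k : ℕ)
  | Th (i j : ℕ)
  | Bd (i k : ℕ)
  | Kd (l k : ℕ)
  | H (i k : ℕ)
  deriving DecidableEq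

/-- nominal position, units `1/SS` -/
def Site.N : Site → V2
  | .G l i => va (NX i) (NY l)
  | .A i k => va (NX i) (rt psii k)
  | .Th i j => va (NX i) (vm S2 (thi j))
  | .Bd i k => va (NX i) (rt (vn (stX (i - 1))) k)
  | .Kd l k => va (NY l) (rt (stY l) k)
  | .H i k => va (va (NX i) (NY 2)) (rt yi k)

/-! ### Vertices -/

inductive Vx
  | g (l i : ℕ) (b : Bool)
  | gp (l i : ℕ) (b : Bool)
  | m (i j : ℕ)
  | a (i k : ℕ)
  | t (i j : ℕ)
  | bd (i k : ℕ)
  | kd (l k : ℕ)
  | h (i : ℕ) (b : Bool)
  | hd (i k : ℕ)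
  | w (k : ℕ)
  deriving DecidableEq

/-- the site of a vertex (junk for ring vertices) -/
def Vx.site : Vx → Site
  | .g l i _ => .G l i
  | .gp l i _ => .G l i
  | .m i _ => .G 0 i
  | .a i k => .A i k
  | .t i j => .Th i j
  | .bd i k => .Bd i k
  | .kd l k => .Kd l k
  | .h i _ => .H i 0
  | .hd i k => .H i k
  | .w _ => .G 0 0

/-- offset direction of the satellites, units `1/SS` -/
def mdir (j : ℕ) : V2 := rot (rt psii j)
/-- offset direction of the primed nodes, units `1/S1` -/
def vpi : V2 := rot c2i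

/-- polarity: the member `b` of a pair is adjacent to a site in direction `u` -/
def pol (b : Bool) (u : V2) : Bool := b == decide (0 < idot u nui)

/-- `(l, i)`, `(l', i')` is a test pair (first `T`, second `P`) -/
def isTest (l i l' i' : ℕ) : Bool :=
  decide (i % 4 = 0 ∧ i' = i + 2 ∧ ((l % 8 = 6 ∧ l' + 3 = l) ∨ (l % 8 = 0 ∧ l' = l + 3)))

/-- value of the test -/
def tval (σ : ℕ → ℕ → Bool) (l i : ℕ) : Bool :=
  if l % 8 = 6 then σ (i / 4) (l / 8) else !σ (i / 4) (l / 8)

/-- Adjacency of designated pairs. -/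
def rule (σ : ℕ → ℕ → Bool) : Vx → Vx → Option Bool
  | .g l i b, .g l' i' _ =>
    if l = 0 ∧ l' = 0 ∧ i = i' + 1 then some (pol b (vn (stX i')))
    else if l = l' ∧ 0 < l ∧ i' = i + 1 then some (pol b (stX i))
    else if i = i' ∧ l' = l + 1 then some (pol b (stY l))
    else if isTest l i l' i' then some (tval σ l i)
    else none
  | .g l i b, .gp l' i' _ =>
    if l = l' ∧ i' = i + 1 then some (pol b (stX i))
    else if l = l' ∧ i = i' + 1 then
      (if l = 0 then some (pol b (vn (stX i'))) else some (decide (0 < idot (stX i') vpi)))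
    else if i = i' ∧ l' = l + 1 then some (decide (idot (stY l) vpi < 0))
    else if i = i' ∧ l = l' + 1 then some (decide (0 < idot (stY l') vpi))
    else if isTest l i l' i' then some (tval σ l i)
    else none
  | .gp l i b, .gp l' i' _ =>
    if i = i' ∧ l' = l + 1 then some (pol b (stY l)) else none
  | .m i j, .g l i' b' =>
    if l = 0 ∧ i = i' + 1 then some (decide (0 < idot (vn (stX i')) (mdir j)))
    else if l = 0 ∧ i' = i + 1 then some (pol b' (vn (stX i)))
    else if l = 1 ∧ i' = i then some (decide (0 < idot (stY 0) (mdir j)))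
    else none
  | .m i _, .gp l i' _ =>
    if l = 1 ∧ i' = i then some (decide (idot (stY 0) vpi < 0)) else none
  | .g l i b, .bd i' k =>
    if l = 0 ∧ i = i' then some (pol b (rt (vn (stX (i' - 1))) k))
    else if l = 0 ∧ i + 1 = i' ∧ (k = 1 ∨ k = 5) then some true
    else none
  | .gp l i _, .bd i' k =>
    if l = 0 ∧ i = i' then
      some (if k = 3 then false else decide (0 < idot (rt (vn (stX (i' - 1))) k) vpi))
    else if l = 0 ∧ i + 1 = i' ∧ (k = 1 ∨ k = 5) then some true
    else none
  | .m i j, .bd i' k =>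
    if i = i' then some (decide (0 < idot (rt (vn (stX (i' - 1))) k) (mdir j)))
    else if i + 1 = i' ∧ (k = 1 ∨ k = 5) then some true
    else none
  | .g l i _, .a i' _ => if l = 0 ∧ i = i' then some true else none
  | .gp l i _, .a i' k =>
    if l = 0 ∧ i = i' then some (decide (0 < idot (rt psii k) vpi)) else none
  | .m i j, .a i' k =>
    if i = i' then some (if k % 3 = j then false else decide (0 < idot (rt psii k) (mdir j)))
    else none
  | .g l i _, .t i' _ => if l = 0 ∧ i = i' then some false else none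
  | .gp l i _, .t i' _ => if l = 0 ∧ i = i' then some true else none
  | .m i _, .t i' _ => if i = i' then some false else none
  | .g l i b, .h i' _ =>
    if l = 2 ∧ i = i' then some (pol b yi)
    else if l = 0 ∧ i = i' + 2 then some true
    else none
  | .gp l i _, .h i' b' =>
    if l = 0 ∧ i = i' + 2 then some (pol b' (vs (vs Z0i (Yo 2)) yi)) else none
  | .m i _, .h i' _ => if i = i' + 2 then some true else none
  | .g l i b, .hd i' k => if l = 2 ∧ i = i' then some (pol b (rt yi k)) else none
  | .g l i b, .kd l' k =>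
    if i = 0 ∧ l = l' then some (pol b (rt (stY l') k))
    else if i = 0 ∧ l = l' + 1 ∧ (k = 1 ∨ k = 5) then some true
    else none
  | .bd i k, .bd i' k' => if i = i' ∧ k' = k + 1 then some true else none
  | .kd l k, .kd l' k' => if l = l' ∧ k' = k + 1 then some true else none
  | .a i k, .a i' k' =>
    if i = i' ∧ (k' = k + 1 ∨ (k = 0 ∧ k' = 5)) then some true else none
  | .h i _, .hd i' k => if i = i' ∧ (k = 1 ∨ k = 5) then some true else none
  | .hd i k, .hd i' k' => if i = i' ∧ k' = k + 1 then some true else none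
  | _, _ => none

/-- column index of a site -/
def Site.ci : Site → ℕ
  | .G _ i => i
  | .A i _ => i
  | .Th i _ => i
  | .Bd i _ => i
  | .Kd _ _ => 0
  | .H i _ => i

/-- row index of a site -/
def Site.ri : Site → ℕ
  | .G l _ => l
  | .A _ _ => 0
  | .Th _ _ => 0
  | .Bd _ _ => 0
  | .Kd l _ => l
  | .H _ _ => 2

/-- the two sites are in neighbouring blocks -/
def win (s s' : Site) : Bool :=
  decide (s.ci / 4 ≤ s'.ci / 4 + 3 ∧ s'.ci / 4 ≤ s.ci / 4 + 3 ∧ s.ri / 8 ≤ s'.ri / 8 + 1 ∧
    s'.ri / 8 ≤ s.ri / 8 + 1)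

/-- nominal distance less than one -/
def near (s s' : Site) : Bool := win s s' && decide (nsq (vs s.N s'.N) < SS * SS)

/-- Adjacency of two vertices which are not ring vertices. -/
def adj0 (σ : ℕ → ℕ → Bool) (x y : Vx) : Bool :=
  match rule σ x y with
  | some v => v
  | none =>
    match rule σ y x with
    | some v => v
    | none => near x.site y.site

/-! ### Finite checks -/

/-- designated pairs of sites (one of the two orders) -/
def des1 : Site → Site → Bool
  | .G l i, .G l' i' =>
    decide ((l = l' ∧ i' = i + 1) ∨ (i = i' ∧ l' = l + 1)) || isTest l i l' i'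
  | .G l i, .Bd i' k =>
    decide (l = 0 ∧ i = i') || decide (l = 0 ∧ i + 1 = i' ∧ (k = 1 ∨ k = 5))
  | .G l i, .A i' _ => decide (l = 0 ∧ i = i')
  | .G l i, .Th i' _ => decide (l = 0 ∧ i = i')
  | .G l i, .H i' k => decide (l = 2 ∧ i = i') || decide (l = 0 ∧ i = i' + 2 ∧ k = 0)
  | .G l i, .Kd l' k =>
    decide (i = 0 ∧ l = l') || decide (i = 0 ∧ l = l' + 1 ∧ (k = 1 ∨ k = 5))
  | .Bd i k, .Bd i' k' => decide (i = i' ∧ k' = k + 1)
  | .Kd l k, .Kd l' k' => decide (l = l' ∧ k' = k + 1)
  | .A i k, .A i' k' => decide (i = i' ∧ (k' = k + 1 ∨ (k = 0 ∧ k' = 5)))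
  | .H i k, .H i' k' => decide (i = i' ∧ (k' = k + 1 ∨ (k = 0 ∧ k' = 5)))
  | _, _ => false

def des (s s' : Site) : Bool := des1 s s' || des1 s' s

/-- `SS * (1 - 0.002)` and `SS * (1 + 0.002)`, squared -/
def lo2 : ℤ := 31980910000000000 * 31980910000000000
def hi2 : ℤ := 32109090000000000 * 32109090000000000

/-- the pair is out of the critical band, or designated -/
def okPair (s s' : Site) (N N' : V2) : Bool :=
  let q := nsq (vs N N')
  decide (q ≤ lo2) || decide (hi2 ≤ q) || des s s'

end Run7.h840
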