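import Pool.Agent.Run7.h840.Sound
import Pool.Agent.Run7.h840.C7
import Pool.Agent.Run7.h840.IfaceD
import Pool.Agent.Run7.h690.UD.C5a
import Pool.Agent.Run7.h690.UD.C6c
import Pool.Agent.Run7.h114.UD.C5b
import Pool.Agent.Run7.h688.UD.C1
import Pool.Agent.Run7.h688.UD.C6a
import Pool.Agent.Run7.h688.UD.C2
import Pool.Agent.Run7.h688.UD.D2
import Pool.Agent.Run7.h688.UD.D3
import Pool.Agent.Run7.h688.UD.D4
import Pool.Agent.Run7.h749.UD.PAdj
import Pool.Agent.H612.PatOf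

/-!
# Unit disk graph recognition is `∃ℝ`-hard for graphs of bounded degree
-/

namespace Run7.h840

open Pool.Agent.NPC Pool.Agent.NPC.H670R2 Pool.Agent.NPC.ER Pool.Agent.NPC.ER.Pat

theorem isPatOf : IsPatOf Sgn.patOf where
  poly := Sgn.poly_patOf Poly.id
  wf := Sgn.patOf_wf
  sound := fun _ h => Sgn.patOf_sound h
  complete := fun _ h => Sgn.patOf_complete h

theorem compl : S_C7 :=
  c7 nc desrule Run7.h690.UD.close Run7.h690.UD.C5a Run7.h114.UD.C5b Run7.h114.UD.C5c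
    Run7.h688.UD.C6b Run7.h690.UD.C6c

/-- Assembly from the piece `C2`. -/
theorem final (hC2 : S_C2) (Δ : ℕ) (hΔ : 10 ^ 15 ≤ Δ) : ERHard (UDGb Δ) := by
  have hC7 := compl
  obtain ⟨u0, hu, hgen⟩ := Run7.h688.UD.gen
  refine ERHard.of_sys (f := fun S => ug (rtabOf u0) (matOf Sgn.patOf 0 S))
    ((H749D.d1 (rtabOf u0)).comp (isPatOf.poly_matOf 0)) fun S => ?_
  obtain ⟨m, hm⟩ := rect_matOf Sgn.patOf 0 S
  have hD3 := Run7.h688.UD.D3 comm (rtabOf u0) (matOf Sgn.patOf 0 S)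
  constructor
  · intro hS
    refine ⟨gOf_wf _ _, fun v => (Run7.h688.UD.D2 _ _ v).trans hΔ, ?_⟩
    rw [Run7.h688.UD.D6]
    rw [hD3]
    have h1 := Run7.h688.UD.D4 _ m hm (isPatOf.srn (k := 0) hS)
    obtain ⟨q, hq, hcfg⟩ := hC2 _ _ _ u0 (by omega) (by omega) h1 hu hgen
    have h2 := hC7 _ _ _ q hcfg
    rw [hq] at h2
    exact ⟨_, h2⟩
  · rintro ⟨-, -, h⟩
    rw [Run7.h688.UD.D6, hD3] at h
    obtain ⟨P, hP⟩ := h
    exact isPatOf.sat (k := 0) (Run7.h688.UD.D5 _ m hm (sound (by omega) (by omega) hP))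

end Run7.h840
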