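import Pool.Agent.Run7.h840.Final
import Pool.Agent.Run7.h749.UD.Cols
import Pool.Agent.Run7.h749.UD.Rows

namespace Run7.h840

open Pool.Agent.NPC.ER

/-- `UDG_Δ` is `∃ℝ`-hard for `Δ ≥ 10 ^ 15`. -/
theorem final' (Δ : ℕ) (hΔ : 10 ^ 15 ≤ Δ) : ERHard (UDGb Δ) :=
  final (Run7.h688.UD.C2 Run7.h749.UD.split Run7.h688.UD.C1 Run7.h749.UD.c2a Run7.h749.UD.c2b) Δ hΔ

end Run7.h840
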