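import Mathlib

/-!
# Bounded degree unit disk graph recognition: elementary plane geometry (pieces A1 - A7)

Everything is in the plane `ℂ`, threshold `1` (adjacent means distance at most one).
Each `S_xxx : Prop` below is a closed proposition to be proved as `theorem xxx : S_xxx` in a file
`Pool/Agent/Run7/h<your number>/...` importing this file.  The comments contain complete proofs.
Constants may not be changed (they have slack).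
-/

namespace Run7.h840

open Complex

/-- The primitive sixth root of unity `e^{iπ/3} = 1/2 + i √3/2`. -/
noncomputable def om : ℂ := ⟨1 / 2, Real.sqrt 3 / 2⟩

/-- Real dot product in `ℂ`: `dt x y = x.re * y.re + x.im * y.im`. -/
def dt (x y : ℂ) : ℝ := x.re * y.re + x.im * y.im

/-- Cross product: `cr x y = x.re * y.im - x.im * y.re`. -/
def cr (x y : ℂ) : ℝ := x.re * y.im - x.im * y.re

/-- **A1 (ring lemma).**  `6 M` points `w i` (indices mod `6 M`), two of them more than `1` apart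
as soon as their cyclic index distance exceeds `M`, all at distance at most `1` from `x` and from
`x'`.  Then `x` and `x'` are close.

PROOF.  Fix `x`; `z i = w i - x`, `r i = ‖z i‖ ≤ 1`, `z i ≠ 0` (otherwise `w i` is within `1` of
all `w j`).
(1) non-adjacent (index difference `d`, `M < d < 5M`): `‖z i - z j‖ > 1 ≥ max r i, r j` gives
  `2 dt (z i) (z j) = r i ^2 + r j ^2 - ‖z i - z j‖^2 < min(r i, r j)^2 ≤ r i * r j`, so the angle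
  at `x` is `> π/3`.
(2) index difference `d ≤ M - 5`: the angle of `z i`, `z (i+d)` is `< π/3`.  Otherwise take the
  four further indices `i+d+(M+1), i+d+2(M+1), i+d+3(M+1), i+d+4(M+1)` (all cyclic distances between
  the six points other than the pair `(i, i+d)` exceed `M`, as `5 (M+1) + d ≤ 6 M`).  In the lift
  of the angle (relative to `z i`) to `[0, 2π)` the five other points lie in `[π/3, 5π/3]` and are
  pairwise more than `π/3` apart: impossible (five numbers in `[1,5]` pairwise more than `1`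
  apart; look at floors).
(3) let `δ i = arg (z (i+1) / z i)`, `S i k = ∑_{l<k} δ (i+l)`.  By (2) and induction
  `S i k = arg (z (i+k) / z i) ∈ (-π/3, π/3)` for `k ≤ M-5`.  Then
  `S i (M+1) = S i (M-5) + S (i+M-5) 6` has absolute value `< 2π/3 < π`, so it is the argument of
  `z (i+M+1)/z i`, and by (1) its absolute value is `> π/3`.  As
  `S (i+1) (M+1) - S i (M+1) = δ (i+M+1) - δ i` has absolute value `< 2π/3`, the sign of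
  `S i (M+1)` does not depend on `i`; reflecting (conj) we may assume it is positive.
(4) `T = ∑_{i<6M} δ i` is a multiple of `2π`; `T` is the sum of five blocks of length `M+1` and
  one of length `M-5`, so `4π/3 < T < 11π/3` and `T = 2π`.  Hence
  `∑_{i<6M} S i (M+1) = (M+1) T = 2π(M+1)` and `∑_{i<6M} (S i (M+1) - π/3) = 2π`.
(5) for non-adjacent `i, j = i+M+1`: `cos (S i (M+1)) < (r²+r'²-1)/(2 r r') ≤ (r+r'-1)/2`
  (the second inequality is `(1-r)(1-r')(3-(1-r)-(1-r')) ≥ 0`), and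
  `cos (π/3 + t) ≥ 1/2 - t`, so `S i (M+1) - π/3 ≥ ((1-r)+(1-r'))/2`.  Summing:
  `∑_{i<6M} (1 - r i) ≤ 2π`.
(6) the same for `x'` with `r' i`.  Let `δ = ‖x - x'‖ > 0`, `m` the midpoint, `n = (x-x')/δ`.
  `(r i)^2 - (r' i)^2 = -2 δ dt (w i - m) n`, so
  `|dt (w i - m) n| ≤ |r i - r' i| / δ ≤ ((1 - r i) + (1 - r' i))/δ`; sum over `i < 6M`: `≤ 4π/δ`.
  On the other hand, among `w i, w (i+M+1), w (i+2(M+1)), w (i+3(M+1))` (pairwise more than `1`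
  apart, within `1` of `m`) some has `|dt (w - m) n| > 1/4`: otherwise their coordinates
  perpendicular to `n` are pairwise more than `√(1 - 1/4) > 0.86` apart and lie in `[-1,1]`,
  impossible for four numbers.  Summing over `i`: `6M/4 ≤ 4 · 4π/δ`, so `δ ≤ 64π/(6M)`. -/
def S_ring : Prop :=
  ∀ M : ℕ, 20 ≤ M → ∀ w : ℕ → ℂ, (∀ i, w (i + 6 * M) = w i) →
    (∀ i d, M < d → d < 5 * M → 1 < ‖w i - w (i + d)‖) →
    ∀ x x' : ℂ, (∀ i, ‖w i - x‖ ≤ 1) → (∀ i, ‖w i - x'‖ ≤ 1) → ‖x - x'‖ ≤ 300 / (6 * M)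

/-- **A2 (tight wheel).**  Six rims `ρ k` (indices mod 6) at distance `1 ± D` from `c`,
consecutive ones at distance `≤ 1`, the others at distance `> 1`: a regular hexagon up to `20 D`.

PROOF.  `z k = ρ k - c`, `s k = arg (z (k+1)/z k)`.  From the law of cosines,
`cos (s k) = (r²+r'²-‖z k - z (k+1)‖²)/(2rr') ≥ 1 - 1/(2(1-D)²) ≥ 1/2 - 1.1 D`, so
`|s k| ≤ π/3 + ε`, `ε = 1.3 D`.  Two steps: `T k = s k + s (k+1)` has `|T k| ≤ 2π/3 + 2ε < π`, it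
is the argument of `z (k+2)/z k`, and non-adjacency gives `|T k| > π/3 - 2D` (law of cosines:
`cos < (r²+r'²-1)/(2rr') ≤ 1/2 + 2D`).  All `T k` have the same sign:
if `T k > 0 > T (k+1)` then `s k - s (k+2) > 2π/3 - 4D`, so `s k ≥ π/3 - O(D)`,
`s (k+2) ≤ -π/3 + O(D)`, `s (k+1) = O(D)`, hence the three step sum is `O(D)` and the angle of
`z k`, `z (k+3)` is `O(D)`, contradicting `‖z k - z (k+3)‖ > 1`.
So `|2 ∑ s k| = |∑ T k| > 2π - 12 D`, `∑ s k` is a multiple of `2π` of absolute value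
`≤ 2π + 6ε < 4π` and `> π - 6D`: it is `± 2π`.  If `+`: `s k = 2π - (other five) ≥ π/3 - 5ε`.
So `|s k - π/3| ≤ 6.5 D` and `‖z (k+1) - om z k‖ ≤ |r - r'| + (1+D)|s k - π/3| ≤ 9 D`.
If `-`: the same with `conj om`. -/
def S_wheel : Prop :=
  ∀ D : ℝ, 0 ≤ D → D ≤ 1 / 1000 → ∀ (c : ℂ) (ρ : ℕ → ℂ), (∀ k, ρ (k + 6) = ρ k) →
    (∀ k, |‖ρ k - c‖ - 1| ≤ D) → (∀ k, ‖ρ k - ρ (k + 1)‖ ≤ 1) →
    (∀ k, 1 < ‖ρ k - ρ (k + 2)‖) → (∀ k, 1 < ‖ρ k - ρ (k + 3)‖) →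
    ∃ σ : ℂ, (σ = om ∨ σ = (starRingEnd ℂ) om) ∧
      ∀ k, ‖(ρ (k + 1) - c) - σ * (ρ k - c)‖ ≤ 20 * D

/-- **A3 (two circles).**  `x`, `y` both (almost) at distance one from `a` and from `b`.

PROOF.  `m = (a+b)/2`, `h = (a-b)/2`, `0.45 ≤ ‖h‖ ≤ 0.9`.  `‖x-a‖²-‖x-b‖² = -4 dt (x-m) h` is at
most `4E` in absolute value; `‖x-a‖²+‖x-b‖² = 2‖x-m‖²+2‖h‖²`.  Write `x - m = α ĥ + β i ĥ`
(`ĥ = h/‖h‖`): `|α| ≤ E/‖h‖ ≤ 2.3 E`, `|β² - (1-‖h‖²)| ≤ 2.1 E`, `1-‖h‖² ≥ 0.19`.  Same for `y`. The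
two `β`'s have `|β_x² - β_y²| ≤ 4.2 E` so `|β_x - β_y| ≤ 5 E` or `|β_x + β_y| ≤ 5 E`. -/
def S_twocircle : Prop :=
  ∀ E : ℝ, 0 ≤ E → E ≤ 1 / 1000 → ∀ a b x y : ℂ, 9 / 10 ≤ ‖a - b‖ → ‖a - b‖ ≤ 9 / 5 →
    |‖x - a‖ - 1| ≤ E → |‖x - b‖ - 1| ≤ E → |‖y - a‖ - 1| ≤ E → |‖y - b‖ - 1| ≤ E →
    ‖x - y‖ ≤ 10 * E ∨ ‖x + y - a - b‖ ≤ 10 * E

/-- **A3' (rhombus cell).**  `c, a, b, x` with `ca, cb, ax, bx` almost unit and both diagonals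
longer than one: almost a rhombus.

PROOF from A3 with `y = c`: `‖a - b‖ > 1`.  `‖a-b‖ ≤ 9/5`, otherwise (notation of A3)
`‖x - m‖², ‖c - m‖² ≤ 1 + 2.1 E - 0.81 < 0.2`, so `‖x - c‖ < 0.9`.  The first alternative of A3
contradicts `‖x - c‖ > 1`. -/
def S_cell : Prop :=
  ∀ E : ℝ, 0 ≤ E → E ≤ 1 / 1000 → ∀ a b c x : ℂ, 1 < ‖a - b‖ → 1 < ‖x - c‖ →
    |‖a - c‖ - 1| ≤ E → |‖b - c‖ - 1| ≤ E → |‖x - a‖ - 1| ≤ E → |‖x - b‖ - 1| ≤ E →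
    ‖x - (a + b - c)‖ ≤ 10 * E

/-- **A4 (squaring).**  `p` is adjacent to all rims `a k` of a wheel, the satellite `m j`
(`j = 0,1,2`) is not adjacent to `a j` and `a (j+3)`; `‖m j - p‖ ≤ s`.  Then every point adjacent
to all rims is within `O(s²)` of `p`; and the rims form a regular hexagon up to `O(s²)` (second
part, with the bound `1 - K s² ≤ ‖a k - p‖`).

PROOF.  `‖a k - p‖ > 1 - s` (as `1 < ‖a k - m j‖`, `j = k mod 3`), so A2 applies with `D = s`; put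
`ρ k = a k - p`, so `‖ρ (k+3) + ρ k‖ ≤ 60 s` up to a small correction
(`σ³ = -1`).  With `c k = 1 - ‖ρ k‖² ≥ 0` and `v = m j - p`,
`1 < ‖ρ j - v‖² = 1 - c j - 2 dt (ρ j) v + ‖v‖²`, same for `j+3`; adding,
`c j + c (j+3) < 2‖v‖² - 2 dt (ρ j + ρ (j+3)) v ≤ 2 s² + 130 s²`.  So `0 ≤ c k ≤ 132 s²`, which is
the second part.  If `‖a k - q‖ ≤ 1` for all `k`, `z = q - p`:
`2 dt (ρ k) z ≥ ‖z‖² - c k ≥ -132 s²` for all `k`; the `ρ k` are nearly the vertices of a regular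
hexagon so for some `k` `dt (ρ k) z ≤ -0.8 ‖z‖`, hence `‖z‖ ≤ 100 s²`. -/
def S_square : Prop :=
  ∀ s : ℝ, 0 ≤ s → s ≤ 1 / 1000 → ∀ (p : ℂ) (a : ℕ → ℂ) (m : ℕ → ℂ), (∀ k, a (k + 6) = a k) →
    (∀ k, ‖a k - p‖ ≤ 1) → (∀ k, ‖a k - a (k + 1)‖ ≤ 1) →
    (∀ k, 1 < ‖a k - a (k + 2)‖) → (∀ k, 1 < ‖a k - a (k + 3)‖) →
    (∀ j < 3, ‖m j - p‖ ≤ s ∧ 1 < ‖a j - m j‖ ∧ 1 < ‖a (j + 3) - m j‖) →
    (∀ k, 1 - 200 * s ^ 2 ≤ ‖a k - p‖) ∧ ∀ q : ℂ, (∀ k, ‖a k - q‖ ≤ 1) → ‖q - p‖ ≤ 200 * s ^ 2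

/-- **A5 (thresholds).**  In the situation of A4, `s = ‖m j - p‖` for some `j` which is the
largest of the three; `m j` is adjacent to `a (j+1)`; `t` is adjacent to `a (j+1)`, `a (j+2)` and
to `T`, but not to `p` nor to `m j`.  Then `‖T - p‖ ≥ s/10`.

PROOF.  Suppose `‖T - p‖ < s/10`; then `1 < ‖τ‖ ≤ 1 + s/10`, `τ = t - p`.  By A2/A4 `ρ k = a k - p`
is `σ^k ρ 0` up to `O(s²)` (apply A2 with `D = 200 s²`), `c k = 1-‖ρ k‖² ∈ [0, 400 s²]`.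
`v = m j - p`, `‖v‖ = s`.  `2 dt (ρ j) v < s² - c j ≤ s²`, `2 dt (ρ (j+3)) v < s²`, so
`|dt (ρ j) v| ≤ s²/2 + C s³`; and `2 dt (ρ (j+1)) v ≥ s² - c (j+1) ≥ -400 s²`.  Normalise
`ρ j = r > 0` and `σ = om` (else conjugate): `v = (v₁, v₂)`, `|v₁| ≤ s²`, so `|v₂| ≥ s(1 - s)`, and
`v₂ > 0` from the last inequality (`s` small: `√3/2 · s > 400 s² + …`; use `s ≤ 1/10000`).
`τ`: `dt (ρ (j+1)) τ ≥ (‖τ‖²+‖ρ‖²-1)/2 ≥ 1/2 - C s²`, same for `ρ (j+2)`; adding, `√3 τ₂ ≥ 1 - C s²`,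
so `τ₂ ≥ 0.57`, and `dt v τ ≥ 0.56 s`.  But `1 < ‖τ - v‖² = ‖τ‖² - 2 dt v τ + s²
≤ 1 + 0.21 s - 1.12 s + s² < 1`. -/
def S_thresh : Prop :=
  ∀ s : ℝ, 0 < s → s ≤ 1 / 100000 → ∀ (p : ℂ) (a : ℕ → ℂ) (m : ℕ → ℂ), (∀ k, a (k + 6) = a k) →
    (∀ k, ‖a k - p‖ ≤ 1) → (∀ k, ‖a k - a (k + 1)‖ ≤ 1) →
    (∀ k, 1 < ‖a k - a (k + 2)‖) → (∀ k, 1 < ‖a k - a (k + 3)‖) →
    (∀ j < 3, ‖m j - p‖ ≤ s ∧ 1 < ‖a j - m j‖ ∧ 1 < ‖a (j + 3) - m j‖) →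
    ∀ j < 3, ‖m j - p‖ = s → ‖m j - a (j + 1)‖ ≤ 1 →
    ∀ t T : ℂ, ‖t - a (j + 1)‖ ≤ 1 → ‖t - a (j + 2)‖ ≤ 1 → 1 < ‖t - p‖ → 1 < ‖t - m j‖ →
      ‖t - T‖ ≤ 1 → s / 10 ≤ ‖T - p‖

/-- **A6 (direction).**  `z, z'` at distance (almost) one from `h`, `Q` too; both diagonals of the
rhombi with sides `h z`, `h Q` and `h z'`, `h Q` are longer than one; `A` is not adjacent to `h`,
adjacent to `Q`, and at distance between `0.9` and `1.1` from `z` and from `z'`.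

PROOF.  `c = h - z`, `c' = h - z'`, `g = Q - h`, `u = A - z`, `u' = A - z'`, `a = A - h`, so
`u = a + c`.  Take coordinates with `c` on the positive real axis; `g = (γ, δ)`, `|γ| ≤ 0.52`,
`|δ| ≥ 0.85` from `0.99 < ‖c - g‖, ‖c + g‖`.  WLOG (conj) `δ > 0`.  `‖u - c‖ = ‖a‖ > 1` gives
`α ≤ 0.62` for `u = (α, β)`; `‖A - Q‖ = ‖u - c - g‖ ≤ 1` gives `β ≥ δ - 1` and `α ≥ γ + … ≥ -0.52`;
with `α² + β² ≥ 0.81` we get `β ≥ 0.6` (if `β < 0.6` then `|α| ≥ 0.67`).  So `cr c u ≥ 0.59`, i.e.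
`cr c a ≥ 0.59`, when `cr c g > 0`, and `cr c a ≤ -0.59` when `cr c g < 0`.  Same for `c'`; since
`‖c - c'‖ ≤ 1` and both are at angle in `[59°, 121°]` from `±g`, `cr c g` and `cr c' g` have the
same sign.  Let `m = (c+c')/2`, `d = c' - c = z - z'`.  `‖u‖² - ‖u'‖² = (‖c‖²-‖c'‖²) - 2 dt a d`,
`‖m‖² dt a d = dt a m * dt m d + cr m a * cr m d`, `2 dt m d = ‖c'‖²-‖c‖²` is `O(E)`,
`(cr m d)² = ‖m‖²‖d‖² - (dt m d)²`, `|cr m a| ≥ 0.59`, `‖m‖ ≤ 1.001`: so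
`|‖u‖²-‖u'‖²| ≥ 1.1 ‖d‖ - 20 E ≥ ‖d‖/2`. -/
def S_dir : Prop :=
  ∀ E : ℝ, 0 ≤ E → E ≤ 1 / 1000 → ∀ h z z' Q A : ℂ,
    |‖z - h‖ - 1| ≤ E → |‖z' - h‖ - 1| ≤ E → |‖Q - h‖ - 1| ≤ E →
    1 < ‖z - Q‖ → 1 < ‖z' - Q‖ →
    99 / 100 < ‖(h - z) - (Q - h)‖ → 99 / 100 < ‖(h - z') - (Q - h)‖ →
    1 < ‖A - h‖ → ‖A - Q‖ ≤ 1 → 9 / 10 ≤ ‖A - z‖ → ‖A - z‖ ≤ 11 / 10 → 9 / 10 ≤ ‖A - z'‖ →
    ‖A - z'‖ ≤ 11 / 10 → ‖z - z'‖ ≤ 1 → 100 * E ≤ ‖z - z'‖ →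
    ‖z - z'‖ / 2 ≤ |‖A - z‖ ^ 2 - ‖A - z'‖ ^ 2|

end Run7.h840
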