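import Pool.Agent.Run7.h840.Defs
import Pool.Agent.Run7.h840.IfaceA

/-!
# Soundness: from a realization of the graph to a linear representation of `σ`

Parameters: `mB ≥ 1` points (real blocks of four columns), `nX = 100 (mB + nL + 1)` extra blocks,
`nL ≥ 1` lines (eight rows each).
-/

namespace Run7.h840

/-- number of extra blocks -/
def nXof (mB nL : ℕ) : ℕ := 100 * (mB + nL + 1)
/-- index of the last column with rows -/
def irOf (mB : ℕ) : ℕ := 4 * (mB - 1) + 2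
/-- index of the last node of the bottom spine -/
def iendOf (mB nL : ℕ) : ℕ := 4 * (mB + nXof mB nL - 1) + 2
/-- a sixth of the number of ring vertices -/
def MR : ℕ := 10 ^ 13

variable (P : Vx → ℂ)

/-- `x` is adjacent to exactly one member of the pair `c`. -/
def Tight (c : Bool → Vx) (x : Vx) : Prop :=
  ∃ b, ‖P (c b) - P x‖ ≤ 1 ∧ 1 < ‖P (c (!b)) - P x‖

/-- the rims `y, r 1, …, r 5`, extended periodically -/
def rims (y : Vx) (r : ℕ → Vx) (k : ℕ) : Vx := if k % 6 = 0 then y else r (k % 6)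

/-- `y, r 1, …, r 5` are the rims of a tight wheel around the pair `c` -/
def Wheel (c : Bool → Vx) (y : Vx) (r : ℕ → Vx) : Prop :=
  (∀ k, Tight P c (rims y r k)) ∧ (∀ k, ‖P (rims y r k) - P (rims y r (k + 1))‖ ≤ 1) ∧
    (∀ k, 1 < ‖P (rims y r k) - P (rims y r (k + 2))‖) ∧
    (∀ k, 1 < ‖P (rims y r k) - P (rims y r (k + 3))‖)

/-- the cluster of node `i` of the bottom spine -/
def Cl (i : ℕ) (x : Vx) : Prop := (∃ b, x = .g 0 i b) ∨ (i % 4 = 2 ∧ ∃ j < 3, x = .m i j)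

/-- The facts about a realization used in the soundness proof (piece B0 derives them from the
adjacencies). -/
structure Facts (σ : ℕ → ℕ → Bool) (mB nL : ℕ) (P : Vx → ℂ) : Prop where
  hm : 1 ≤ mB
  hn : 1 ≤ nL
  ring1 : ∀ k d, MR < d → d < 5 * MR →
    1 < ‖P (.w (k % (6 * MR))) - P (.w ((k + d) % (6 * MR)))‖
  ring2 : ∀ k < 6 * MR, ∀ x, Cl (iendOf mB nL) x → ‖P (.w k) - P x‖ ≤ 1
  -- wheels
  whB : ∀ i < iendOf mB nL, ∀ y, Cl i y → Wheel P (.g 0 (i + 1)) y (.bd (i + 1))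
  whK : ∀ l b, l + 1 < 8 * nL → Wheel P (.g l 0) (.g (l + 1) 0 b) (.kd l)
  whH : ∀ i b, i % 4 = 0 → i + 2 ≤ irOf mB → Wheel P (.g 2 i) (.h i b) (.hd i)
  -- squaring
  sqa : ∀ i ≤ iendOf mB nL, i % 4 = 2 → ∀ k < 6, ∀ b, ‖P (.a i k) - P (.g 0 i b)‖ ≤ 1
  sqb : ∀ i ≤ iendOf mB nL, i % 4 = 2 → ∀ k, ‖P (.a i (k % 6)) - P (.a i ((k + 1) % 6))‖ ≤ 1
  sqc : ∀ i ≤ iendOf mB nL, i % 4 = 2 → ∀ k, 1 < ‖P (.a i (k % 6)) - P (.a i ((k + 2) % 6))‖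
  sqd : ∀ i ≤ iendOf mB nL, i % 4 = 2 → ∀ k, 1 < ‖P (.a i (k % 6)) - P (.a i ((k + 3) % 6))‖
  sqm : ∀ i ≤ iendOf mB nL, i % 4 = 2 → ∀ j < 3, 1 < ‖P (.a i j) - P (.m i j)‖ ∧
    1 < ‖P (.a i (j + 3)) - P (.m i j)‖ ∧ ‖P (.m i j) - P (.a i (j + 1))‖ ≤ 1
  -- thresholds
  thr : ∀ i ≤ irOf mB, i % 4 = 2 → ∀ j < 3, ‖P (.t i j) - P (.a i (j + 1))‖ ≤ 1 ∧
    ‖P (.t i j) - P (.a i (j + 2))‖ ≤ 1 ∧ 1 < ‖P (.t i j) - P (.g 0 i true)‖ ∧
    1 < ‖P (.t i j) - P (.m i j)‖ ∧ ‖P (.t i j) - P (.gp 0 i true)‖ ≤ 1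
  -- cells
  colT : ∀ l i b, l + 1 < 8 * nL → i ≤ irOf mB → Tight P (.g l i) (.g (l + 1) i b)
  rowT : ∀ l i b, 0 < l → l < 8 * nL → i + 1 ≤ irOf mB → Tight P (.g l i) (.g l (i + 1) b)
  diag1 : ∀ l i, l + 1 < 8 * nL → i + 1 ≤ irOf mB →
    1 < ‖P (.g l (i + 1) true) - P (.g (l + 1) i true)‖
  diag2 : ∀ l i b, l + 1 < 8 * nL → i + 1 ≤ irOf mB →
    1 < ‖P (.g l i true) - P (.g (l + 1) (i + 1) b)‖
  -- primed nodes
  prH : ∀ i b, i % 4 = 2 → i ≤ irOf mB → Tight P (.g 0 (i - 1)) (.gp 0 i b)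
  prh : ∀ i b, i % 4 = 2 → i ≤ irOf mB → Tight P (.h (i - 2)) (.gp 0 i b)
  pr1 : ∀ i, i % 4 = 2 → i ≤ irOf mB → ‖P (.h (i - 2) true) - P (.g 0 i true)‖ ≤ 1 ∧
    ‖P (.h (i - 2) true) - P (.bd i 4)‖ ≤ 1 ∧ ‖P (.h (i - 2) true) - P (.bd i 5)‖ ≤ 1 ∧
    1 < ‖P (.h (i - 2) true) - P (.g 0 (i - 1) true)‖
  pr2 : ∀ i b, i % 4 = 2 → i ≤ irOf mB → ‖P (.gp 0 i b) - P (.bd i 2)‖ ≤ 1
  prC : ∀ l i b, i % 4 = 2 → i ≤ irOf mB → l + 1 < 8 * nL → Tight P (.gp l i) (.gp (l + 1) i b)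
  prR : ∀ l i b, i % 4 = 2 → i ≤ irOf mB → 0 < l → l < 8 * nL → Tight P (.g l (i - 1)) (.gp l i b)
  prd1 : ∀ l i, i % 4 = 2 → i ≤ irOf mB → l + 1 < 8 * nL →
    1 < ‖P (.gp l i true) - P (.g (l + 1) (i - 1) true)‖
  prd2 : ∀ l i b, i % 4 = 2 → i ≤ irOf mB → l + 1 < 8 * nL →
    1 < ‖P (.g l (i - 1) true) - P (.gp (l + 1) i b)‖
  prn : ∀ l i, i % 4 = 2 → i ≤ irOf mB → l < 8 * nL → ‖P (.gp l i true) - P (.g l i true)‖ ≤ 1
  -- tests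
  tst : ∀ p < mB, ∀ j < nL, ∀ z, (z = Vx.g (8 * j + 3) (4 * p + 2) true ∨
      z = Vx.gp (8 * j + 3) (4 * p + 2) true) →
    (σ p j = true → ‖P (.g (8 * j + 6) (4 * p) true) - P z‖ ≤ 1 ∧
      1 < ‖P (.g (8 * j) (4 * p) true) - P z‖) ∧
    (σ p j = false → 1 < ‖P (.g (8 * j + 6) (4 * p) true) - P z‖ ∧
      ‖P (.g (8 * j) (4 * p) true) - P z‖ ≤ 1)
  dir1 : ∀ p < mB, ∀ j < nL,
    1 < ‖P (.g (8 * j + 6) (4 * p) true) - P (.g (8 * j + 3) (4 * p + 1) true)‖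
  dir2 : ∀ p < mB, ∀ j < nL,
    ‖P (.g (8 * j + 6) (4 * p) true) - P (.g (8 * j + 4) (4 * p + 1) true)‖ ≤ 1

/-- thickness of the pair at `(l, i)` -/
noncomputable def thk (l i : ℕ) : ℝ := ‖P (.g l i true) - P (.g l i false)‖

/-- **B1 (spine).**  Uses `S_ring`, `S_wheel`, `S_square`, `S_thresh`.

For `p < mB` put `i = 4 p + 2`.  There is `s > 0`, tiny, such that all spine nodes up to `i` of the
bottom spine and all nodes of the left spine are thin relative to `s²`, while the primed node at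
`(0, i)` is at distance at least `s / 10` from the unprimed one.

PROOF.  Transfer: for a tight wheel (`Wheel P c y r` and `Wheel P c y' r`) around a pair of
thickness `E ≤ 1/1000`, `S_wheel` (centre `P (c true)`, `D = E`; a tight vertex is at distance
`1 ± E` from `P (c true)`) gives `P y - c ≈ σ⁻¹ (P (r 1) - c) ≈ P y' - c` with the same `σ`
(determined by `r 1, r 2`), so `‖P y - P y'‖ ≤ 40 E`.
Hence the diameter `D (i)` of the cluster `Cl i` satisfies `D (i-1) ≤ 40 thk 0 i`; `D (iend) ≤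
300/(6 MR)` by `S_ring`; if `i % 4 = 2` then with `s i = max_j ‖P (m i j) - P (g 0 i true)‖ ≤ D i`
`S_square` gives `thk 0 i ≤ 200 (s i)^2`; otherwise use `thk 0 i ≤ D i`.  So for `i % 4 = 2`:
`D (i - 4) ≤ 40^4 · 200 · (D i)^2`, and `K D (i-4) ≤ (K D i)^2` with `K = 40^4·200 = 512000000`,
`K D (iend) ≤ 1/10^2`.  After `nX = 100(mB+nL+1)` steps, `K D (4p+2) ≤ 10^{-2·2^{nX}} ≤
10^{-200(mB+nL+1)}`; take `s = s (4p+2)`.  `s > 0` because `m i 0` is not adjacent to `a i 0` while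
`g 0 i true` is.  `S_thresh` for the largest `j` gives `s/10 ≤ ‖P (gp 0 i true) - P (g 0 i true)‖`.
Left spine: `thk (l+1) 0 ≤ 40 thk l 0`. -/
def S_B1 : Prop := ∀ (σ : ℕ → ℕ → Bool) (mB nL : ℕ) (P : Vx → ℂ), Facts σ mB nL P →
  ∀ p < mB, ∃ s : ℝ, 0 < s ∧ s ≤ (1 / 10) ^ (150 * (mB + nL + 1)) ∧
    (∀ i ≤ 4 * p + 2, thk P 0 i ≤ 40 ^ (4 * p + 2) * 200 * s ^ 2) ∧
    (∀ l < 8 * nL, thk P l 0 ≤ 40 ^ (4 * p + 2 + l) * 200 * s ^ 2) ∧
    s / 10 ≤ ‖P (.gp 0 (4 * p + 2) true) - P (.g 0 (4 * p + 2) true)‖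

/-- **B2 (grid).**  Uses `S_cell`.

If all spine nodes are `E₀`-thin then the node `(l, i)` is where it should be.

PROOF.  Induction on `l + i` (`l, i ≥ 1`): the cell with corners `c = (l-1, i-1)`, `a = (l-1, i)`,
`b = (l, i-1)`, and `x = (l, i)` (both members of the pair): all four sides are tight to a pair of
thickness `≤ T = max thk` of those three corners (side `c a`: for `l-1 = 0` the parent is
`(0, i)`, from `whB` with `y = g 0 (i-1) b`, otherwise `rowT`; `c b`, `a x`: `colT`; `b x`: `rowT`),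
the diagonals are `> 1` by `diag1`, `diag2`.  So `S_cell` gives `‖x - (a + b - c)‖ ≤ 10 T` for both
members `x`; hence `thk l i ≤ 20 T`, and
`err l i ≤ err (l-1) i + err l (i-1) + err (l-1) (i-1) + 10 T`.
With `thk l i ≤ 20^(l+i) E₀` and `err l i ≤ 100^(l+i) E₀`. -/
def S_B2 : Prop := ∀ (σ : ℕ → ℕ → Bool) (mB nL : ℕ) (P : Vx → ℂ), Facts σ mB nL P →
  ∀ p < mB, ∀ E₀ : ℝ, 0 ≤ E₀ → 100 ^ (8 * nL + 4 * p + 2) * E₀ ≤ 1 / 1000 →
    (∀ i ≤ 4 * p + 2, thk P 0 i ≤ E₀) → (∀ l < 8 * nL, thk P l 0 ≤ E₀) →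
    ∀ l < 8 * nL, ∀ i ≤ 4 * p + 2, thk P l i ≤ 20 ^ (l + i) * E₀ ∧
      ‖P (.g l i true) - (P (.g l 0 true) + P (.g 0 i true) - P (.g 0 0 true))‖ ≤
        100 ^ (l + i) * E₀

/-- **B3 (primed nodes).**  Uses `S_cell`, `S_twocircle`, `S_wheel`.

PROOF.  `i = 4 p + 2`, `E` bounds the thickness of all nodes `(l, i')`, `i' ≤ i`.
(1) `h = h (i-2)` : the wheel `whH` around the `E`-thin pair `(2, i-2)` gives
`‖P (h true) - P (h false)‖ ≤ 40 E`.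
(2) `x = gp 0 i true`, `y = gp 0 i false` are at distance `1 ± 40 E` from `a = P (g 0 (i-1) true)`
and from `b = P (h true)`.  By `whB` for the node `i` (`y` there `:= g 0 (i-1) true`) and `S_wheel`,
the points `P (bd i k)` are `T + σ^k (a - T)` up to `100 E`, `T = P (g 0 i true)`.  Normalise
`T = 0`, `a = 1`, `σ = om` (else conjugate).  By `pr1` `b` is (up to `O(E)`) in the unit discs
around `0`, `om^4`, `om^5` and outside the open unit disc around `1`: so `b.re ≥ -1/2 - O(E)`,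
`b.im ≤ O(E)`, and `1 - O(E) ≤ ‖b - a‖ ≤ √3 + O(E)` (the points of the two discs around `om^4`,
`om^5` have `im ≤ 0`; `‖b - om^5‖ ≤ 1`, `‖b‖ ≤ 1` and `re ≥ -1/2`).  `S_twocircle` gives
`‖x - y‖ ≤ 400 E` or `‖x + y - a - b‖ ≤ 400 E`; in the second case by `pr2` the midpoint
`(a + b)/2 = (x+y)/2 + O(E)` is within `1 + O(E)` of `om^2`, but
`‖(1 + b)/2 - om²‖² = ((2 + b.re)² + (b.im - √3)²)/4 ≥ (2.25 + 3)/4 - O(E) > 1.3`.
So the primed pair at `(0,i)` is `400 E`-thin.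
(3) going up, `S_cell` for the cells `c = (l, i-1)`, `a = (l, i)'`, `b = (l+1, i-1)`,
`x = (l+1, i)'` (sides: `c a` tight to the pair `(l, i-1)` by `prH` / `prR`; `c b` `colT`; `a x`
`prC`; `b x` `prR`; diagonals `prd1`, `prd2`). -/
def S_B3 : Prop := ∀ (σ : ℕ → ℕ → Bool) (mB nL : ℕ) (P : Vx → ℂ), Facts σ mB nL P →
  ∀ p < mB, ∀ E : ℝ, 0 ≤ E → 100 ^ (8 * nL) * E ≤ 1 / 10 ^ 8 →
    (∀ l < 8 * nL, ∀ i ≤ 4 * p + 2, thk P l i ≤ E) →
    ∀ l < 8 * nL, ‖P (.gp l (4 * p + 2) true) - (P (.gp 0 (4 * p + 2) true) +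
      P (.g l (4 * p + 1) true) - P (.g 0 (4 * p + 1) true))‖ ≤ 100 ^ (l + 1) * 1000 * E

/-- the conclusion: `σ` is represented by points and lines of the plane -/
def Lin (σ : ℕ → ℕ → Bool) (mB nL : ℕ) : Prop :=
  ∃ (z u : ℕ → ℂ) (c : ℕ → ℝ), ∀ p < mB, ∀ j < nL,
    (σ p j = true → 0 < c j + dt (z p) (u j)) ∧ (σ p j = false → c j + dt (z p) (u j) < 0)

/-- **B4 (end of the soundness proof).**  Uses `S_B1`, `S_B2`, `S_B3`, `S_dir`.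

PROOF.  Put `a l = P (g l 0 true)`, `x i = P (g 0 i true)`, `x' i = P (gp 0 i true)`,
`z p = x (4p+2) - x (4p)`, `z' p = x' (4p+2) - x (4p)`, `A j = a (8j+6) - a (8j+3)`,
`B j = a (8j) - a (8j+3)`.  By B1, B2, B3, for every `p` with `s` from B1 and
`e = s² · 100^(…)` (`≤ s/10^6`): `P (g (8j+3) (4p+2) true) - P (g (8j+6) (4p) true) = z p - A j ± e`,
same with primes and with `B`.  Also `v = z' p - z p` has `‖v‖ ≥ s/10`, and by `prn` (for `l = 0`)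
`‖v‖ ≤ 1`.
Let `f j z = ‖z - B j‖² - ‖z - A j‖²`, an affine function of `z`.  Claim: at the midpoint
`w p = (z p + z' p)/2`, `f j (w p)` is positive if `σ p j`, negative otherwise.
Case `σ p j = true`: `‖z-A‖, ‖z'-A‖ ≤ 1 + e`, `‖z-B‖, ‖z'-B‖ ≥ 1 - e`.  If `‖z - A‖ < 0.9` or
`‖z' - A‖ < 0.9`, then `2 f (w) = f z + f z' ≥ 0.19 - O(e) > 0`.  Otherwise `S_dir` (with
`h = P (g (8j+3) (4p+1) true)`, its `z`, `z'` the actual points `P (g (8j+3) (4p+2) true)`,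
`P (gp (8j+3) (4p+2) true)`, `Q = P (g (8j+4) (4p+1) true)`, `A = P (g (8j+6) (4p) true)`;
hypotheses from `rowT`/`prR` (the row `8j+3 > 0`), `colT`, `diag1`, `prd1`, `diag2`, `prd2` with
`‖P (g (8j+4) (4p+2) true) - (z + Q - h)‖ ≤ O(e)`, `dir1`, `dir2`) gives
`|‖z-A‖² - ‖z'-A‖²| ≥ ‖v‖/2 - O(e)`, so one of `‖z-A‖²`, `‖z'-A‖²` is `≤ 1 + 3e - ‖v‖/2 + O(e)`
and `2 f w ≥ ‖v‖/2 - O(e) > 0`.  The case `σ p j = false` is the same with reversed inequalities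
(`‖z - A‖ > 1.1` in place of `< 0.9`). -/
def S_B4 : Prop := ∀ (σ : ℕ → ℕ → Bool) (mB nL : ℕ) (P : Vx → ℂ), Facts σ mB nL P → Lin σ mB nL

end Run7.h840
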