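import Pool.Agent.Run7.h840.IfaceB

/-!
# The full adjacency (with the ring), and completeness: the realization
-/

namespace Run7.h840

open Complex

/-! ### Adjacency, validity -/

/-- Adjacency of two ring vertices: cyclic distance at most `MR`. -/
def cyc (k k' : ℕ) : Bool :=
  decide ((k ≤ k' + MR ∧ k' ≤ k + MR) ∨ k + 5 * MR ≤ k' ∨ k' + 5 * MR ≤ k)

/-- The site of a vertex near the root, transported to the template (root at column `14`). -/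
def rsite (iend : ℕ) : Vx → Option Site
  | .g l i _ => if l = 0 ∧ iend ≤ i + 12 ∧ i ≤ iend then some (.G 0 (i + 14 - iend)) else none
  | .m i _ => if iend ≤ i + 12 ∧ i ≤ iend then some (.G 0 (i + 14 - iend)) else none
  | .a i k => if iend ≤ i + 12 ∧ i ≤ iend then some (.A (i + 14 - iend) k) else none
  | .bd i k => if iend ≤ i + 12 ∧ i ≤ iend then some (.Bd (i + 14 - iend) k) else none
  | _ => none

/-- Adjacency of the ring vertex `k` and a vertex which is not a ring vertex. -/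
def radj (rtab : ℕ → Site → Bool) (iend k : ℕ) (x : Vx) : Bool :=
  match rsite iend x with
  | some s => decide (s = .G 0 14) || rtab k s
  | none => false

/-- **The adjacency.** -/
def adj (rtab : ℕ → Site → Bool) (σ : ℕ → ℕ → Bool) (iend : ℕ) : Vx → Vx → Bool
  | .w k, .w k' => cyc k k'
  | .w k, y => radj rtab iend k y
  | x, .w k => radj rtab iend k x
  | x, y => adj0 σ x y

/-- The vertices of the graph. -/
def Val (mB nL : ℕ) : Vx → Prop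
  | .g l i _ => (l = 0 ∧ i ≤ iendOf mB nL) ∨ (l < 8 * nL ∧ i ≤ irOf mB)
  | .gp l i _ => i % 4 = 2 ∧ i ≤ irOf mB ∧ l < 8 * nL
  | .m i j => i % 4 = 2 ∧ i ≤ iendOf mB nL ∧ j < 3
  | .a i k => i % 4 = 2 ∧ i ≤ iendOf mB nL ∧ k < 6
  | .t i j => i % 4 = 2 ∧ i ≤ irOf mB ∧ j < 3
  | .bd i k => 1 ≤ i ∧ i ≤ iendOf mB nL ∧ 1 ≤ k ∧ k ≤ 5
  | .kd l k => l + 1 < 8 * nL ∧ 1 ≤ k ∧ k ≤ 5
  | .h i _ => i % 4 = 0 ∧ i + 2 ≤ irOf mB
  | .hd i k => i % 4 = 0 ∧ i + 2 ≤ irOf mB ∧ 1 ≤ k ∧ k ≤ 5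
  | .w k => k < 6 * MR

/-- `P` realizes the adjacency. -/
def Rlz (A : Vx → Vx → Bool) (mB nL : ℕ) (P : Vx → ℂ) : Prop :=
  ∀ x y, Val mB nL x → Val mB nL y → x ≠ y → (A x y = true ↔ ‖P x - P y‖ ≤ 1)

/-- **D0.** The adjacency is symmetric.

PROOF.  Ring cases: `cyc` is symmetric, the others by definition.  `adj0`: `near` is symmetric, and
`rule σ x y`, `rule σ y x` are never both `some` with different values (cases on the constructors,
index conditions by `omega`). -/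
def S_comm : Prop := ∀ (rtab : ℕ → Site → Bool) (σ : ℕ → ℕ → Bool) (iend : ℕ) (x y : Vx),
  adj rtab σ iend x y = adj rtab σ iend y x

/-- **B0.** The facts of `IfaceB` for a realization.

PROOF.  Evaluate `adj` at each of the pairs (for instance `rule σ (g l i b) (g (l+1) i b') =
some (pol b (stY l))` and `pol true u ≠ pol false u` give `colT`); the index conditions select the
branch of `rule`; for the pairs without rule (e.g. `diag1`, `diag2`) `near` depends only on the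
difference of the nominal positions: `NX (i+1) - NX i = vm S2 (stX i)`, `NY (l+1) - NY l =
vm S2 (stY l)`, so there are finitely many cases (`i % 4`, `l % 8`). -/
def S_B0 : Prop := ∀ (rtab : ℕ → Site → Bool) (σ : ℕ → ℕ → Bool) (mB nL : ℕ) (P : Vx → ℂ),
  1 ≤ mB → 1 ≤ nL → Rlz (adj rtab σ (iendOf mB nL)) mB nL P → Facts σ mB nL P

/-! ### Nominal distances (pieces C3) -/

/-- valid sites -/
def SVal : Site → Prop
  | .G _ _ => True
  | .A i k => i % 4 = 2 ∧ k < 6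
  | .Th i j => i % 4 = 2 ∧ j < 3
  | .Bd i k => 1 ≤ i ∧ 1 ≤ k ∧ k ≤ 5
  | .Kd _ k => 1 ≤ k ∧ k ≤ 5
  | .H i k => i % 4 = 0 ∧ k < 6

/-- **C3 (nominal distances).** Pairs of sites which are not designated are out of the critical
band.

PROOF.  If not `win s s'`: coordinates.  `Pc = (635470000, 0)`, `Pr = (45850000, 1255050000)`.  All
rims are within `1.001 SS` of their centres.  If the row blocks differ by at least `2` then the
`y`-coordinates differ by more than `hi`, otherwise the column blocks differ by at least `4` and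
the `x`-coordinates differ by more than `hi` (`SS * 1.002`).
If `win s s'`: `Check.lean`.  Translate (by multiples of `4` columns, `8` rows, forwards or
backwards) so that the pair is in one of the lists: the differences `s.N - s'.N` and the value
`des s s'` do not change.  (`chkGG`: `s` in block `(3, 1)`; `chkEG`, `chkEE`: `s` an `A, Th, Bd, H`
site of block `3`; `chkKG`, `chkKK`: `s = Kd l k` of row block `1`; `chkKE`: as they are.) -/
def S_NC : Prop := ∀ s s' : Site, SVal s → SVal s' → des s s' = false →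
  (near s s' = true ∧ nsq (vs s.N s'.N) ≤ lo2) ∨ (near s s' = false ∧ hi2 ≤ nsq (vs s.N s'.N))

/-- **C0 (designated pairs have a rule).**  PROOF: cases; `x`, `y` not ring vertices. -/
def S_desrule : Prop := ∀ (σ : ℕ → ℕ → Bool) (mB nL : ℕ) (x y : Vx), Val mB nL x → Val mB nL y →
  (∀ k, x ≠ .w k) → (∀ k, y ≠ .w k) → rule σ x y = none → rule σ y x = none →
  des x.site y.site = false

/-! ### Exact directions and the template -/

/-- integer vector in units `1/S1` -/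
noncomputable def cu (a : V2) : ℂ := ⟨(a.1 : ℝ) / S1, (a.2 : ℝ) / S1⟩
/-- integer vector in units `1/SS` -/
noncomputable def cS (a : V2) : ℂ := ⟨(a.1 : ℝ) / SS, (a.2 : ℝ) / SS⟩

/-- the height of the isosceles triangle with base `W` and sides `1`, over `‖W‖` -/
noncomputable def kk (W : ℂ) : ℝ := Real.sqrt (1 / ‖W‖ ^ 2 - 1 / 4)
/-- `W = spa W + spb W` with unit vectors, `spa W` to the left of `W` -/
noncomputable def spa (W : ℂ) : ℂ := W / 2 + kk W * (I * W)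
noncomputable def spb (W : ℂ) : ℂ := W / 2 - kk W * (I * W)

/-- **C-split.** Exact and stable decompositions.

PROOF.  `‖spa W‖² = ‖W‖²/4 + kk² ‖W‖² = 1`.  Stability: write `a' = α Ŵ + β I Ŵ`;
`α = (‖a'‖² - ‖W - a'‖² + ‖W‖²)/(2‖W‖)`, so `|α - ‖W‖/2| ≤ 42 η`;
`|β² - (1 - ‖W‖²/4)| ≤ 5 η`, `1 - ‖W‖²/4 ≥ 0.19`, and the sign of `β` is the sign of `cr W a'`. -/
def S_split : Prop := ∀ W : ℂ, 1 / 20 ≤ ‖W‖ → ‖W‖ ≤ 9 / 5 →
  ‖spa W‖ = 1 ∧ ‖spb W‖ = 1 ∧ spa W + spb W = W ∧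
  ∀ (a' : ℂ) (η : ℝ), 0 ≤ η → η ≤ 1 / 1000 → |‖a'‖ - 1| ≤ η → |‖W - a'‖ - 1| ≤ η →
    (0 < cr W a' → ‖spa W - a'‖ ≤ 100 * η) ∧ (cr W a' < 0 → ‖spb W - a'‖ ≤ 100 * η)

/-- the columns when all signals are `Z0` -/
noncomputable def Xr (i : ℕ) : ℂ :=
  ((i / 4 : ℕ) : ℂ) * cu Pc + (match i % 4 with
    | 0 => 0
    | 1 => spa (cu Z0i)
    | 2 => cu Z0i
    | _ => cu Z0i + cu s1i)

/-- exact positions of the sites of the template, relative to the root (column `14`) -/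
noncomputable def rpos : Site → ℂ
  | .G _ i => Xr i - Xr 14
  | .A i k => Xr i - Xr 14 + cu psii * om ^ k
  | .Bd i k => Xr i - Xr 14 + (Xr (i - 1) - Xr i) * om ^ k
  | _ => 0

/-- the ring points, relative to the root -/
noncomputable def rp (u0 : ℂ) (k : ℕ) : ℂ :=
  ((1 - 1 / (4 * MR) : ℝ) : ℂ) * u0 * Complex.exp (2 * Real.pi * I * k / (6 * MR))

/-- the adjacency table of the ring -/
noncomputable def rtabOf (u0 : ℂ) (k : ℕ) (s : Site) : Bool :=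
  haveI := Classical.propDecidable (‖rpos s - rp u0 k‖ ≤ 1)
  decide (‖rpos s - rp u0 k‖ ≤ 1)

/-- the sites of the template -/
def RS : Site → Prop
  | .G l i => l = 0 ∧ 2 ≤ i ∧ i ≤ 14
  | .A i k => 2 ≤ i ∧ i ≤ 14 ∧ k < 6
  | .Bd i k => 2 ≤ i ∧ i ≤ 14 ∧ k < 6
  | _ => False

/-- **C6a (genericity).**

PROOF.  `RS` is a finite set.  For a point `c ≠ 0` and `0 < r < 1` the set of unit `v` with
`‖c - r v‖ = 1` has at most two elements (`dt c v` is determined), and for `c = 0` it is empty; so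
only finitely many `u0` on the unit circle are bad. -/
def S_gen : Prop := ∃ u0 : ℂ, ‖u0‖ = 1 ∧ ∀ k < 6 * MR, ∀ s, RS s → ‖rpos s - rp u0 k‖ ≠ 1

/-! ### The configuration -/

/-- data of a realization -/
structure Par where
  X : ℕ → ℂ
  Y : ℕ → ℂ
  e : ℕ → ℝ
  yv : ℕ → ℂ
  u0 : ℂ
  iend : ℕ
  Lr : ℕ

namespace Par

variable (q : Par)

/-- rank of a node -/
def rk (l i : ℕ) : ℕ := if l = 0 then q.iend - i else if i = 0 then q.iend + l
  else q.iend + q.Lr + l + i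

/-- half thickness of a node -/
noncomputable def ge (l i : ℕ) : ℝ :=
  if l = 0 ∧ i % 4 = 2 then q.e (q.iend - i) ^ 2 / 16 else q.e (q.rk l i)

/-- shrinking of the rims of the bottom wheels -/
noncomputable def kap (i : ℕ) : ℝ :=
  if i % 4 = 2 then q.e (q.iend - i) ^ 3 else q.e (q.iend - i) ^ 2

/-- displacement of the primed nodes: `X i + vpo i` is at distance one from `X (i-1)` -/
noncomputable def vpo (i : ℕ) : ℂ :=
  (q.X (i - 1) - q.X i) * (1 - ((Real.sqrt (1 - 100 * q.e (q.iend - i) ^ 2) : ℝ) -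
    10 * (q.e (q.iend - i) : ℝ) * I))

/-- sign -/
noncomputable def sg (b : Bool) : ℂ := if b then 1 else -1

/-- **The positions of the vertices.** -/
noncomputable def pos : Vx → ℂ
  | .g l i b => q.X i + q.Y l + sg b * (q.ge l i : ℝ) * cu nui
  | .gp l i b => q.X i + q.Y l + q.vpo i + sg b * (q.e (q.iend + q.Lr + l + i + 4) : ℝ) * cu nui
  | .m i j => q.X i + (q.e (q.iend - i) : ℝ) * (I * cu psii * om ^ j)
  | .a i k => q.X i + (Real.sqrt (1 - q.e (q.iend - i) ^ 2 / 2) : ℝ) * (cu psii * om ^ k)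
  | .t i j => q.X i + ((1 + 2 * q.e (q.iend - i) : ℝ) : ℂ) * cu (thi j)
  | .bd i k => q.X i + ((1 - q.kap i : ℝ) : ℂ) * ((q.X (i - 1) - q.X i) * om ^ k)
  | .kd l k => q.Y l + ((1 - q.e (q.rk l 0) ^ 2 : ℝ) : ℂ) * ((q.Y (l + 1) - q.Y l) * om ^ k)
  | .h i b => q.X i + q.Y 2 + q.yv i + sg b * (q.e (q.iend + q.Lr + i + 4) : ℝ) * cu nui
  | .hd i k => q.X i + q.Y 2 + ((1 - q.e (q.rk 2 i) ^ 2 : ℝ) : ℂ) * (q.yv i * om ^ k)
  | .w k => q.X q.iend + rp q.u0 k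

end Par

/-- the conditions on the data -/
structure Cfg (σ : ℕ → ℕ → Bool) (mB nL : ℕ) (q : Par) : Prop where
  hm : 1 ≤ mB
  hn : 1 ≤ nL
  hi : q.iend = iendOf mB nL
  hL : q.Lr = 8 * nL
  X0 : q.X 0 = 0
  Y0 : q.Y 0 = 0
  Xu : ∀ i, ‖q.X (i + 1) - q.X i‖ = 1
  Yu : ∀ l, ‖q.Y (l + 1) - q.Y l‖ = 1
  Xc : ∀ i, ‖q.X i - cS (NX i)‖ ≤ 1 / 10 ^ 6
  Yc : ∀ l, ‖q.Y l - cS (NY l)‖ ≤ 1 / 10 ^ 6
  Xe : ∀ i, i ≤ q.iend → q.iend ≤ i + 13 →
    q.X i - q.X q.iend = Xr (i + 14 - q.iend) - Xr 14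
  epos : ∀ n, 0 < q.e n
  e0 : q.e 0 ≤ 1 / 10 ^ 20
  es : ∀ n, q.e (n + 1) ≤ q.e n ^ 4 / 10 ^ 6
  tst : ∀ p < mB, ∀ j < nL,
    (σ p j = true → ‖q.X (4 * p + 2) + q.Y (8 * j + 3) - (q.X (4 * p) + q.Y (8 * j + 6))‖ ≤
        1 - 100 * q.e 0 ∧
      1 + 100 * q.e 0 ≤ ‖q.X (4 * p + 2) + q.Y (8 * j + 3) - (q.X (4 * p) + q.Y (8 * j))‖) ∧
    (σ p j = false → ‖q.X (4 * p + 2) + q.Y (8 * j + 3) - (q.X (4 * p) + q.Y (8 * j))‖ ≤
        1 - 100 * q.e 0 ∧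
      1 + 100 * q.e 0 ≤ ‖q.X (4 * p + 2) + q.Y (8 * j + 3) - (q.X (4 * p) + q.Y (8 * j + 6))‖)
  yu : ∀ i, i % 4 = 0 → i + 2 ≤ irOf mB → ‖q.yv i‖ = 1 ∧
    ‖q.X i + q.Y 2 + q.yv i - (q.X (i + 2) + q.vpo (i + 2))‖ = 1 ∧ ‖q.yv i - cu yi‖ ≤ 4 / 10 ^ 4
  u0 : ‖q.u0‖ = 1
  rg : ∀ k < 6 * MR, ∀ s, RS s → 100 * q.e 0 ≤ |‖rpos s - rp q.u0 k‖ - 1|

/-- **C4 (closeness).**

PROOF.  `X`, `Y` by `Xc`, `Yc`; offsets of size `≤ 20 e 0`; the directions: `cu psii * om ^ k`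
against `cS (rt psii k)` (the error of `omi` is `10^-8`), `(X (i-1) - X i) om^k` against
`cS (rt (vn (stX (i-1))) k)` with `NX i - NX (i-1) = vm S2 (stX (i-1))`, etc. -/
def S_close : Prop := ∀ (σ : ℕ → ℕ → Bool) (mB nL : ℕ) (q : Par), Cfg σ mB nL q →
  ∀ x, Val mB nL x → (∀ k, x ≠ .w k) → ‖q.pos x - cS x.site.N‖ ≤ 5 / 10 ^ 4

/-- **C5 (designated pairs).**  `K x y` says which pairs are treated.

PROOF (general).  `pos y - pos x = U + w`, `U` an exact unit vector (a step of `X` or `Y`, `yv i`,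
`X (i+2) + vpo (i+2) - (X i + Y 2 + yv i)`, …), and `w = s d + r` with a dominant term `s d`
(`s` the larger scale, `‖d‖ ≤ 11`) and `‖r‖ ≤ s/1000`.  Then
`‖U + w‖² = 1 + 2 s dt U d + O(s/500 + s²)`, so the sign of `dt U d` decides; it is the sign of the
integer `idot u v` of the rule (`u, v` the nominal vectors; `|idot u v| ≥ S1²/50` in all cases,
the smallest is `0.036` for `rt yi 1` and `nui`).
Dominance: ranks. `es` gives `e n' ≤ e n ^ 4 / 10^6` for `n < n'`. -/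
def S_C5 (K : Vx → Vx → Prop) : Prop := ∀ (σ : ℕ → ℕ → Bool) (mB nL : ℕ) (q : Par),
  Cfg σ mB nL q → ∀ x y, K x y → Val mB nL x → Val mB nL y → ∀ v, rule σ x y = some v →
    (v = true ↔ ‖q.pos x - q.pos y‖ ≤ 1)

/-- the kind of a vertex -/
def kn : Vx → ℕ
  | .g _ _ _ => 0
  | .gp _ _ _ => 1
  | .m _ _ => 2
  | .a _ _ => 3
  | .t _ _ => 4
  | .bd _ _ => 5
  | .kd _ _ => 6
  | .h _ _ => 7
  | .hd _ _ => 8
  | .w _ => 9

/-- **C5a**: grid nodes, primed nodes, satellites; tests.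

Notes.  `g l i b - g l' i'`: exact unit step, the parent (smaller rank) dominates: bottom spine: the
larger index; rows `l > 0`: the smaller column; columns: the lower row (`ge 0 i ≥ e²/16` against
`e(rank+1) ≤ e⁴/10⁶`).  `g l (i-1) b - gp l i`: `U = X i + vpo i - X (i-1)` is an exact unit vector
(within `20 e` of the step).  `gp l i - g l (i+1)`: for `l = 0` the node `g 0 (i+1)` dominates
(its scale is `e (iend-i-1)`, against `10 e (iend-i)`), for `l > 0` the displacement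
`vpo i = 10 e I (X (i-1) - X i) + O(e²)` dominates (direction `vpi`).  `g l i - gp (l+1) i`,
`gp l i - g (l+1) i`: `vpo i` dominates.  `m i j`: offset `e (I ψ om^j)` (direction `mdir j`),
dominated by `g 0 (i+1)`, dominates `g 0 (i-1)`, `g 1 i`; against `gp 1 i` the sum
`10 vpi - mdir j` has the sign of `vpi`.  Tests: `Cfg.tst`, all offsets are `≤ 20 e 0` in total. -/
def S_C5a : Prop := S_C5 fun x y => kn x ≤ 2 ∧ kn y ≤ 2

/-- **C5b**: the wheels `bd`, `kd`.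

Notes.  `kap i` is `e³` (`i ≡ 2`) or `e²`, much smaller than the offsets of the centre (`e²/16`, `e`,
or `10 e` for the primed node, direction `I c₂`, `c₂ = X (i-1) - X i`; `dt (c₂ om^k) (I c₂) =
sin (π k/3)`; for `k = 3` the second order matters:
`‖pos (gp 0 i) - pos (bd i 3)‖² ≈ (1 + 50 e² - kap)² + 100 e²> 1`).  Consecutive rims are at distance
`(1 - kap)`.  `X (i-1)` and the rims `k = 1, 5`: distance² `1 - kap + kap²`, and the offsets of the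
cluster of node `i - 1` are `≤ 20 e (iend-i+1) ≤ 20 e (iend-i)^4/10^6 ≤ kap/1000`. -/
def S_C5b : Prop := S_C5 fun x y => kn y = 5 ∨ kn y = 6

/-- **C5c**: `a`, `t`, `h`, `hd`.

Notes.  `m i j - a i k`: distance² is exactly
`1 + e²/2 - 2 e √(1-e²/2) sin (π (k-j)/3)`: for `k ≡ j mod 3` this is `> 1`.  `g 0 i - a i k`:
`√(1-e²/2) + e²/16 ≤ 1`.  `gp 0 i - a i k`: first order, `vpo`.  `a - a`: `√(1-e²/2) ≤ 1`.
`t i j`: `‖t - X i‖ = 1 + 2e`; `g`, `m` are within `e` of `X i`: distance `> 1`; `gp 0 i`: displacement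
`10 e vpi + O(e²)` with `idot (thi j) vpi ≥ 0.37 S1²`: distance `< 1`.
`h i b`: exact unit vectors `yv i` to `(2, i)` and `X (i+2) + vpo (i+2) - (X i + Y 2 + yv i)` to the
centre of `gp 0 (i+2)`; from `h` to `g 0 (i+2)`, `m (i+2) j` subtract `vpo (i+2)`: nearer, as
`dt U vpi ≥ 0.9`, `10 dt U vpi - dt U (mdir j) ≥ 8`. `hd`: shrinking `e (rk 2 i)^2` against the
thickness `e (rk 2 i)` of `g 2 i` and `e (iend + Lr + i + 4)` of `h i`. -/
def S_C5c : Prop := S_C5 fun _ y => kn y = 3 ∨ kn y = 4 ∨ kn y = 7 ∨ kn y = 8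

/-- **C6b (ring against ring).**  PROOF.  `‖rp k - rp k'‖ = 2 r₀ |sin (π (k-k')/(6 MR))|`,
`r₀ = 1 - 1/(4 MR)`.  For cyclic distance `≤ MR` this is `≤ 2 r₀ sin (π/6) = r₀ < 1`; otherwise
`≥ 2 r₀ sin (π/6 + π/(6 MR)) > 1`, as `sin (π/6 + x) ≥ 1/2 + (√3/2) x - x²/2`, `x = π/(6 MR)`. -/
def S_C6b : Prop := ∀ u0 : ℂ, ‖u0‖ = 1 → ∀ k < 6 * MR, ∀ k' < 6 * MR, k ≠ k' →
  (cyc k k' = true ↔ ‖rp u0 k - rp u0 k'‖ ≤ 1)

/-- **C6c (ring against the other vertices).**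

PROOF.  If `rsite iend x = some s` then `pos x` is within `3 e 0` of `X iend + rpos s` (by `Xe`, and
`i - 1 + 14 - iend = (i + 14 - iend) - 1`), `RS s` and `rg` apply; if `s = G 0 14` then `rpos s = 0`
and the distance is `≤ r₀ + 3 e 0 ≤ 1`.  If `rsite iend x = none` then `x` is far: `pos x` is at
distance `> 2.1` from `X iend`, by `S_close` and the nominal `x`-coordinates
(`iend = 4 (mB + nX - 1) + 2`, `nX = 100 (mB + nL + 1)`; a column `≤ iend - 13` has `x`-coordinate at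
most that of the root minus `4.9`; a vertex of row `l` in a column `≤ ir`: `x ≤ (mB + 1) 1.99 +
0.15 (nL + 1) + 2`, the root has `x ≥ 1.98 (mB + nX - 1) - 0.01`). -/
def S_C6c : Prop := ∀ (σ : ℕ → ℕ → Bool) (mB nL : ℕ) (q : Par), Cfg σ mB nL q →
  ∀ x, Val mB nL x → (∀ k, x ≠ .w k) → ∀ k < 6 * MR,
    (radj (rtabOf q.u0) q.iend k x = true ↔ ‖q.pos (.w k) - q.pos x‖ ≤ 1)

/-- **C7 (assembly).**  From `S_NC`, `S_desrule`, `S_close`, `S_C5a`, `S_C5b`, `S_C5c`, `S_C6b`,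
`S_C6c`, `S_comm`. -/
def S_C7 : Prop := ∀ (σ : ℕ → ℕ → Bool) (mB nL : ℕ) (q : Par), Cfg σ mB nL q →
  Rlz (adj (rtabOf q.u0) σ (iendOf mB nL)) mB nL q.pos

/-! ### Existence of configurations -/

/-- `σ` is given by points and lines `c + x + h y = 0`. -/
def Sig (σ : ℕ → ℕ → Bool) (mB nL : ℕ) : Prop :=
  ∃ y0 y1 h c : ℕ → ℝ, ∀ p < mB, ∀ j < nL, (σ p j = true → 0 < c j + y0 p + h j * y1 p) ∧
    (σ p j = false → c j + y0 p + h j * y1 p < 0)

/-- **C1 (signals).**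

PROOF.  `n0 = cu n0i`, `Z0 = cu Z0i`.  For `K > 0` large and `δ > 0` small put
`z p = Z0 + δ (y0 p + K y1 p I) n0`, `n j = (1 + (h j / K) I) n0 / ‖1 + (h j/K) I‖`,
`q j = Z0 - δ c j n0`.  Then `dt (z p - q j) (n j) = δ (c j + y0 p + h j y1 p)/‖1 + (h j/K) I‖` and
`‖z p - q j‖² = O(δ²)`. -/
def S_C1 : Prop := ∀ (σ : ℕ → ℕ → Bool) (mB nL : ℕ), Sig σ mB nL → ∀ ε : ℝ, 0 < ε →
  ∃ z q n : ℕ → ℂ, (∀ p, ‖z p - cu Z0i‖ ≤ ε) ∧ (∀ j, ‖q j - cu Z0i‖ ≤ ε) ∧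
    (∀ j, ‖n j - cu n0i‖ ≤ ε) ∧ (∀ j, ‖n j‖ = 1) ∧
    ∀ p < mB, ∀ j < nL,
      (σ p j = true → ‖z p - q j‖ ^ 2 < 2 * dt (z p - q j) (n j)) ∧
      (σ p j = false → ‖z p - q j‖ ^ 2 < -(2 * dt (z p - q j) (n j)))

/-- **C2a (columns).**  PROOF.  Block `p` has steps `spa z, spb z, s1, s2` (`z = z p` if `p < mB`,
`z = Z0` otherwise); closeness from `S_split` with `a' = cu c1i` (`‖cu c1i‖`, `‖Z0 - cu c1i‖` are
`1 ± 10^-9`). -/
def S_C2a : Prop := ∀ (mB : ℕ) (z : ℕ → ℂ), 1 ≤ mB →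
  (∀ p, ‖z p - cu Z0i‖ ≤ 1 / (10 ^ 9 * mB)) → ∃ X : ℕ → ℂ, X 0 = 0 ∧
    (∀ i, ‖X (i + 1) - X i‖ = 1) ∧ (∀ i, ‖X i - cS (NX i)‖ ≤ 1 / 10 ^ 6) ∧
    (∀ p < mB, X (4 * p + 2) - X (4 * p) = z p) ∧ (∀ i, X (4 * mB + i) = X (4 * mB) + Xr i)

/-- **C2b (rows).**  PROOF.  Block `j` (`q = Z0`, `n = n0` for `j ≥ nL`): steps `spb W, -g1, spa W,
spa W', -g4, spb W', g6, g7` with `W = n - q + g1`, `W' = n + q + g4`.  Closeness from `S_split`
with `a' = cu g0i` for `spb W` and `a' = cu g3i` for `spa W'`; exactly `stY 2 = n0 - Z0 + g1 - g0`. -/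
def S_C2b : Prop := ∀ (nL : ℕ) (q n : ℕ → ℂ), 1 ≤ nL →
  (∀ j, ‖q j - cu Z0i‖ ≤ 1 / (10 ^ 9 * nL)) → (∀ j, ‖n j - cu n0i‖ ≤ 1 / (10 ^ 9 * nL)) →
  (∀ j, ‖n j‖ = 1) → ∃ Y : ℕ → ℂ, Y 0 = 0 ∧
    (∀ l, ‖Y (l + 1) - Y l‖ = 1) ∧ (∀ l, ‖Y l - cS (NY l)‖ ≤ 1 / 10 ^ 6) ∧
    ∀ j < nL, Y (8 * j + 3) - Y (8 * j) = n j - q j ∧
      Y (8 * j + 6) - Y (8 * j + 3) = n j + q j

/-- **C2 (configuration).**  Uses `S_C1`, `S_C2a`, `S_C2b`, `S_split`.

PROOF.  `ε = 1/(10^9 (mB + nL))` in `S_C1`.  With `A = Y (8j+6) - Y (8j+3) = q + n` and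
`B = Y (8j) - Y (8j+3) = q - n`: `‖z - A‖² = 1 + ‖z-q‖² - 2 dt (z-q) n`, so the strict inequalities
of `S_C1` give strict test inequalities, hence a margin `τ > 0` (finitely many pairs).  `rg` also
has a margin (finitely many `k`, `s`).  Take `e n = ε₀ ^ (5 ^ n)` with
`ε₀ ≤ 10^-20, τ/100, margin/100`.  `yv i` (`i = 4p`): with `W = X (i+2) + vpo (i+2) - X i - Y 2`,
close to `Z0 - Yo 2`, take `yv i = spa W` or `spb W` (the one near `cu yi`, by the sign of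
`cr W (cu yi)`), `S_split` with `η = 4 · 10^-6`; `‖W - yv i‖ = 1`.  `Xe` from the last part of
`S_C2a`: `Xr (4 t + i') = t Pc + Xr i'`. -/
def S_C2 : Prop := ∀ (σ : ℕ → ℕ → Bool) (mB nL : ℕ) (u0 : ℂ), 1 ≤ mB → 1 ≤ nL → Sig σ mB nL →
  ‖u0‖ = 1 → (∀ k < 6 * MR, ∀ s, RS s → ‖rpos s - rp u0 k‖ ≠ 1) →
    ∃ q : Par, q.u0 = u0 ∧ Cfg σ mB nL q

end Run7.h840
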