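import Pool.Agent.Run7.h85.Ring
import Pool.Agent.Run7.h690.UD.B3
import Pool.Agent.Run7.h114.UD.A6
import Pool.Agent.Run7.h704.UD.B4
import Pool.Agent.Run7.h840.B0

namespace Run7.h840

/-- Soundness: from the facts to a linear representation. -/
theorem soundB4 : S_B4 :=
  Run7.h704.UD.B4
    (B1 Run7.h85.ring wheel (square wheel) (thresh wheel (square wheel)))
    (Run7.h704.UD.B2 Run7.h114.UD.cell)
    (B3 Run7.h114.UD.cell Run7.h114.UD.twocircle wheel)
    Run7.h114.UD.dir

/-- **Soundness**: a realization of the graph gives a linear representation of `σ`. -/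
theorem sound {rtab : ℕ → Site → Bool} {σ : ℕ → ℕ → Bool} {mB nL : ℕ} {P : Vx → ℂ}
    (hm : 1 ≤ mB) (hn : 1 ≤ nL) (hR : Rlz (adj rtab σ (iendOf mB nL)) mB nL P) : Lin σ mB nL :=
  soundB4 σ mB nL P (b0 rtab σ mB nL P hm hn hR)

end Run7.h840
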